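import Pool.Agent.Lib_helper2.UKL.Defs

/-!
# UKL module M4: the coefficients `h` have small `ℓ¹` norm
-/

set_option autoImplicit false

namespace UKL
namespace M4

open Finset

/-! ### equations for `h` -/

lemma h_zz (ξ : ℤ) (V n : ℕ) : h ξ V 0 0 n = 1 := by cases V <;> simp [h]

lemma h_sz (ξ : ℤ) (V v n : ℕ) : h ξ V (v + 1) 0 n = 0 := by cases V <;> simp [h]

lemma h_zs (ξ : ℤ) (V l n : ℕ) : h ξ V 0 (l + 1) n = 0 := by cases V <;> simp [h]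

lemma h_ss (ξ : ℤ) (V v l n : ℕ) : h ξ (V + 1) (v + 1) (l + 1) n =
    (1 / 2) * h ξ V v (l + 1) n + (1 / 2) * e (-(2 ^ V * ξ : ℝ) / 3 ^ n) * h ξ V v l (n - 1) := by
  simp [h]

lemma h_zero_of_lt (ξ : ℤ) : ∀ V v l n : ℕ, V < l → h ξ V v l n = 0
  | _, _, 0, _, hl => absurd hl (by omega)
  | _, 0, l + 1, n, _ => h_zs _ _ _ _
  | 0, v + 1, l + 1, n, _ => by simp [h]
  | V + 1, v + 1, l + 1, n, hl => by
    rw [h_ss, h_zero_of_lt ξ V v (l + 1) n (by omega), h_zero_of_lt ξ V v l (n - 1) (by omega)]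
    simp

lemma norm_e (x : ℝ) : ‖e x‖ = 1 := by
  unfold e
  rw [Complex.norm_exp]
  simp

/-- `ℓ¹` norm -/
noncomputable def N (ξ : ℤ) (V l n : ℕ) : ℝ := ∑ v ∈ range (V + 1), ‖h ξ V v l n‖

lemma N_nonneg (ξ : ℤ) (V l n : ℕ) : 0 ≤ N ξ V l n := sum_nonneg fun _ _ => norm_nonneg _

lemma N_zero (ξ : ℤ) (V n : ℕ) : N ξ V 0 n = 1 := by
  unfold N
  rw [sum_range_succ']
  simp [h_zz, h_sz]

lemma N_of_lt (ξ : ℤ) (V l n : ℕ) (hl : V < l) : N ξ V l n = 0 := by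
  unfold N
  exact sum_eq_zero fun v _ => by rw [h_zero_of_lt ξ V v l n hl, norm_zero]

lemma N_succ_le (ξ : ℤ) (V l n : ℕ) :
    N ξ (V + 1) (l + 1) n ≤ (1 / 2) * N ξ V (l + 1) n + (1 / 2) * N ξ V l (n - 1) := by
  unfold N
  rw [sum_range_succ', h_zs, norm_zero, add_zero, mul_sum, mul_sum, ← sum_add_distrib]
  refine sum_le_sum fun v _ => ?_
  rw [h_ss]
  refine (norm_add_le _ _).trans ?_
  rw [norm_mul, norm_mul, norm_mul, norm_e]
  norm_num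

lemma N_le_one (ξ : ℤ) : ∀ V l n : ℕ, N ξ V l n ≤ 1
  | _, 0, _ => (N_zero _ _ _).le
  | 0, l + 1, n => by rw [N_of_lt ξ 0 (l + 1) n (by omega)]; norm_num
  | V + 1, l + 1, n => by
    have h1 := N_succ_le ξ V l n
    have h2 := N_le_one ξ V (l + 1) n
    have h3 := N_le_one ξ V l (n - 1)
    linarith

/-! ### the two-step recursion -/

/-- the cosine factor -/
noncomputable def K (θ : ℝ) : ℝ := ‖e (-θ) + e (-(2 * θ))‖ / 2

lemma K_nonneg (θ : ℝ) : 0 ≤ K θ := by unfold K; positivity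

lemma K_le_one (θ : ℝ) : K θ ≤ 1 := by
  unfold K
  have := norm_add_le (e (-θ)) (e (-(2 * θ)))
  rw [norm_e, norm_e] at this
  linarith

lemma K_eq (θ : ℝ) : K θ = |Real.cos (Real.pi * θ)| := by
  unfold K
  have : e (-θ) + e (-(2 * θ)) = e (-(3 / 2 * θ)) * (2 * (Real.cos (Real.pi * θ) : ℂ)) := by
    rw [Complex.ofReal_cos, Complex.cos]
    unfold e
    rw [mul_div_cancel₀ _ (by norm_num : (2 : ℂ) ≠ 0), mul_add, ← Complex.exp_add,
      ← Complex.exp_add]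
    congr 1
    · congr 1; push_cast; ring
    · congr 1; push_cast; ring
  rw [this, norm_mul, norm_e, one_mul, norm_mul, Complex.norm_real]
  simp

lemma N_two_step (ξ : ℤ) (V l n : ℕ) :
    N ξ (V + 2) (l + 2) n ≤ (1 / 4) * N ξ V (l + 2) n
      + (1 / 2) * K ((2 ^ V * ξ : ℝ) / 3 ^ n) * N ξ V (l + 1) (n - 1)
      + (1 / 4) * N ξ V l (n - 2) := by
  unfold N
  rw [sum_range_succ', sum_range_succ', h_zs, norm_zero, add_zero]
  have hone : h ξ (V + 2) (0 + 1) (l + 2) n = 0 := by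
    rw [show l + 2 = (l + 1) + 1 by ring, h_ss, h_zs, h_zs]; simp
  rw [hone, norm_zero, add_zero, mul_sum, mul_sum, mul_sum, ← sum_add_distrib,
    ← sum_add_distrib]
  refine sum_le_sum fun v _ => ?_
  have key : h ξ (V + 2) (v + 1 + 1) (l + 2) n = (1 / 4) * h ξ V v (l + 2) n
      + (1 / 4) * (e (-((2 ^ V * ξ : ℝ) / 3 ^ n)) + e (-(2 * ((2 ^ V * ξ : ℝ) / 3 ^ n))))
        * h ξ V v (l + 1) (n - 1)
      + (1 / 4) * (e (-(2 * ((2 ^ V * ξ : ℝ) / 3 ^ n))) * e (-(2 ^ V * ξ : ℝ) / 3 ^ (n - 1)))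
        * h ξ V v l (n - 2) := by
    rw [show l + 2 = (l + 1) + 1 by ring, h_ss ξ (V + 1) (v + 1) (l + 1) n, h_ss ξ V v (l + 1) n,
      h_ss ξ V v l (n - 1)]
    have e1 : (-(2 ^ (V + 1) * ξ : ℝ) / 3 ^ n) = -(2 * ((2 ^ V * ξ : ℝ) / 3 ^ n)) := by
      rw [pow_succ]; ring
    have e2 : (-(2 ^ V * ξ : ℝ) / 3 ^ n) = -((2 ^ V * ξ : ℝ) / 3 ^ n) := by ring
    rw [e1, e2, show n - 1 - 1 = n - 2 by omega]
    ring
  rw [key]
  refine (norm_add₃_le).trans ?_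
  rw [norm_mul, norm_mul, norm_mul, norm_mul, norm_mul, norm_mul, norm_e, norm_e]
  have : K ((2 ^ V * ξ : ℝ) / 3 ^ n)
      = ‖e (-((2 ^ V * ξ : ℝ) / 3 ^ n)) + e (-(2 * ((2 ^ V * ξ : ℝ) / 3 ^ n)))‖ / 2 := rfl
  rw [this]
  have q : ‖(1 / 4 : ℂ)‖ = 1 / 4 := by norm_num
  rw [q]
  apply le_of_eq
  ring

/-! ### cosine bound in the white case -/

lemma cos_pi_div_bound {t : ℝ} (h1 : 1 / 13 ≤ |t|) (h2 : |t| ≤ 1 / 2) :
    |Real.cos (Real.pi * t)| ≤ 0.972 := by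
  have hpi := Real.pi_gt_d2
  have habs : Real.cos (Real.pi * t) = Real.cos (Real.pi * |t|) := by
    rcases abs_choice t with h | h
    · rw [h]
    · rw [h, mul_neg, Real.cos_neg]
  rw [habs]
  have hlow : (0.24 : ℝ) ≤ Real.pi * |t| := by
    have : (3.14 : ℝ) * (1 / 13) ≤ Real.pi * |t| :=
      mul_le_mul hpi.le h1 (by norm_num) Real.pi_pos.le
    linarith [show (0.24 : ℝ) ≤ 3.14 * (1 / 13) by norm_num]
  have hup : Real.pi * |t| ≤ Real.pi / 2 := by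
    have := mul_le_mul_of_nonneg_left h2 Real.pi_pos.le
    linarith
  have hnn : 0 ≤ Real.cos (Real.pi * |t|) :=
    Real.cos_nonneg_of_mem_Icc ⟨by linarith [Real.pi_pos], hup⟩
  rw [abs_of_nonneg hnn]
  have hmono : Real.cos (Real.pi * |t|) ≤ Real.cos 0.24 :=
    Real.cos_le_cos_of_nonneg_of_le_pi (by norm_num) (by linarith [Real.pi_pos]) hlow
  have hb := Real.cos_bound (x := 0.24) (by rw [abs_of_nonneg] <;> norm_num)
  have hb' := (abs_le.1 hb).2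
  rw [abs_of_nonneg (by norm_num : (0 : ℝ) ≤ 0.24)] at hb'
  norm_num at hb' ⊢
  norm_num at hmono
  linarith

lemma abs_cos_add_int (x : ℝ) (k : ℤ) :
    |Real.cos (x + k * Real.pi)| = |Real.cos x| := by
  rw [Real.cos_add_int_mul_pi]
  rw [abs_mul]
  rcases Int.even_or_odd k with hk | hk
  · rw [hk.neg_one_zpow]; simp
  · rw [hk.neg_one_zpow]; simp

/-- white state: the cosine factor is at most `0.972` -/
lemma K_white (a m : ℤ) (n : ℕ) (hm : m ≡ a [ZMOD 3 ^ n]) (h1 : (3 : ℤ) ^ n ≤ 13 * |m|)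
    (h2 : 2 * |m| < 3 ^ n) : K ((a : ℝ) / 3 ^ n) ≤ 0.972 := by
  obtain ⟨k, hk⟩ := hm.dvd
  have h3 : (0 : ℝ) < 3 ^ n := by positivity
  have hk' : (a : ℝ) = m + 3 ^ n * k := by
    have : (a : ℤ) = m + 3 ^ n * k := by linarith
    rw [this]; push_cast; ring
  rw [K_eq, show Real.pi * ((a : ℝ) / 3 ^ n) = Real.pi * ((m : ℝ) / 3 ^ n) + k * Real.pi by
    rw [hk']; field_simp, abs_cos_add_int]
  have e1 : |(m : ℝ) / 3 ^ n| = |(m : ℝ)| / 3 ^ n := by rw [abs_div, abs_of_pos h3]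
  apply cos_pi_div_bound
  · rw [e1, le_div_iff₀ h3]
    have : ((3 : ℤ) ^ n : ℝ) ≤ ((13 * |m| : ℤ) : ℝ) := by exact_mod_cast h1
    push_cast at this
    linarith
  · rw [e1, div_le_iff₀ h3]
    have : ((2 * |m| : ℤ) : ℝ) < (((3 : ℤ) ^ n : ℤ) : ℝ) := by exact_mod_cast h2
    push_cast at this
    linarith

/-! ### arithmetic of states -/

lemma exists_state (a : ℤ) (k : ℕ) : ∃ m : ℤ, 4 * m ≡ a [ZMOD 3 ^ k] ∧ 2 * |m| < 3 ^ k := by
  have hcop : IsCoprime (4 : ℤ) (3 ^ k) := by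
    apply IsCoprime.pow_right
    exact ⟨1, -1, by norm_num⟩
  obtain ⟨u, v, huv⟩ := hcop
  set b := u * a with hb
  have hodd : Odd ((3 : ℤ) ^ k) := Odd.pow (by decide)
  refine ⟨Int.bmod b (3 ^ k), ?_, ?_⟩
  · have h1 : Int.bmod b (3 ^ k) ≡ b [ZMOD 3 ^ k] := by
      have := Int.bmod_emod (x := b) (m := 3 ^ k)
      unfold Int.ModEq
      push_cast at this
      exact this
    have h2 : 4 * b ≡ a [ZMOD 3 ^ k] := by
      rw [Int.modEq_iff_dvd]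
      refine ⟨v * a, ?_⟩
      rw [hb]
      linear_combination (-a) * huv
    exact (h1.mul_left 4).trans h2
  · have hpos : 0 < 3 ^ k := by positivity
    have h1 := Int.bmod_lt (x := b) hpos
    have h2 := Int.le_bmod (x := b) hpos
    obtain ⟨j, hj⟩ := hodd
    have h3 : ((3 ^ k : ℕ) : ℤ) = 2 * j + 1 := by push_cast; exact hj
    rw [h3] at h1 h2
    have h4 : ((2 * j + 1 + 1) / 2 : ℤ) = j + 1 := by omega
    have h5 : ((2 * j + 1) / 2 : ℤ) = j := by omega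
    rw [h4] at h1
    rw [h5] at h2
    rw [hj]
    have : |Int.bmod b (3 ^ k)| ≤ j := abs_le.2 ⟨h2, by omega⟩
    omega

lemma exists_four_pow (m : ℤ) (hm : m ≠ 0) : ∃ J : ℕ, ∃ m' : ℤ, m = 4 ^ J * m' ∧ ¬ (4 ∣ m') := by
  have hf : FiniteMultiplicity (4 : ℤ) m := Int.finiteMultiplicity_iff.2 ⟨by decide, hm⟩
  obtain ⟨c, hc, hc'⟩ := hf.exists_eq_pow_mul_and_not_dvd
  exact ⟨_, c, hc, hc'⟩

/-- in a black state the number of factors `4` is small -/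
lemma black_J (m m' : ℤ) (J n : ℕ) (hm : m = 4 ^ J * m') (h0 : m ≠ 0) (h1 : 13 * |m| < 3 ^ n) :
    5 * (J + 1) < 4 * n := by
  by_contra hcon
  push Not at hcon
  have hm' : 1 ≤ |m'| := by
    have : m' ≠ 0 := by rintro rfl; simp at hm; exact h0 hm
    exact Int.one_le_abs this
  have h2 : (4 : ℤ) ^ (J + 1) < 3 ^ n := by
    have : (4 : ℤ) ^ J ≤ |m| := by
      rw [hm, abs_mul, abs_of_pos (by positivity : (0 : ℤ) < 4 ^ J)]
      nlinarith [show (0 : ℤ) < 4 ^ J by positivity]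
    have h4 : (4 : ℤ) ^ (J + 1) = 4 * 4 ^ J := by rw [pow_succ]; ring
    have h5 : (0 : ℤ) < 4 ^ J := by positivity
    linarith
  have h3 : ((4 : ℤ) ^ (J + 1)) ^ 5 < (3 ^ n) ^ 5 := by
    gcongr
  have h4 : ((3 : ℤ) ^ n) ^ 5 ≤ (4 ^ (J + 1)) ^ 5 := by
    calc ((3 : ℤ) ^ n) ^ 5 = (3 ^ 5) ^ n := by rw [← pow_mul, ← pow_mul, mul_comm]
      _ ≤ (4 ^ 4) ^ n := by gcongr; norm_num
      _ = 4 ^ (4 * n) := by rw [← pow_mul]
      _ ≤ 4 ^ (5 * (J + 1)) := by gcongr; norm_num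
      _ = (4 ^ (J + 1)) ^ 5 := by rw [← pow_mul, mul_comm]
  exact absurd h3 (not_lt.2 h4)

/-! ### analytic inequalities; the exponent is `1/200` -/

lemma rpow_shift_le {x t : ℝ} (hx : 0 < x) (ht : 0 < x + t) :
    (x + t) ^ (-(1 / 200 : ℝ)) ≤ x ^ (-(1 / 200 : ℝ)) * (1 - (1 / 200) * (t / (x + t))) := by
  have h1 : (x + t) ^ (-(1 / 200 : ℝ)) = x ^ (-(1 / 200 : ℝ)) * (1 + -(t / (x + t))) ^ (1 / 200 : ℝ) := by
    have e1 : 1 + -(t / (x + t)) = x / (x + t) := by field_simp; ring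
    rw [e1, Real.div_rpow hx.le ht.le, Real.rpow_neg hx.le, Real.rpow_neg ht.le]
    have : x ^ (1 / 200 : ℝ) ≠ 0 := (Real.rpow_pos_of_pos hx _).ne'
    field_simp
  rw [h1]
  have h2 : (1 + -(t / (x + t))) ^ (1 / 200 : ℝ) ≤ 1 + (1 / 200) * -(t / (x + t)) := by
    apply rpow_one_add_le_one_add_mul_self
    · have : t / (x + t) ≤ 1 := by rw [div_le_one ht]; linarith
      linarith
    · norm_num
    · norm_num
  have h3 : 0 ≤ x ^ (-(1 / 200 : ℝ)) := Real.rpow_nonneg hx.le _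
  calc x ^ (-(1 / 200 : ℝ)) * (1 + -(t / (x + t))) ^ (1 / 200 : ℝ)
      ≤ x ^ (-(1 / 200 : ℝ)) * (1 + (1 / 200) * -(t / (x + t))) := mul_le_mul_of_nonneg_left h2 h3
    _ = _ := by ring

/-- the drift inequality -/
lemma drift {x : ℝ} (hx : 21 ≤ x) :
    (1 / 4) * (x + 1.1) ^ (-(1 / 200 : ℝ)) + (1 / 2) * (x + 0.1) ^ (-(1 / 200 : ℝ))
      + (1 / 4) * (x + -0.9) ^ (-(1 / 200 : ℝ)) ≤ x ^ (-(1 / 200 : ℝ)) := by
  have h1 := rpow_shift_le (x := x) (t := 1.1) (by linarith) (by linarith)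
  have h2 := rpow_shift_le (x := x) (t := 0.1) (by linarith) (by linarith)
  have h3 := rpow_shift_le (x := x) (t := -0.9) (by linarith) (by linarith)
  have h4 : 0 ≤ x ^ (-(1 / 200 : ℝ)) := Real.rpow_nonneg (by linarith) _
  have h5 : 0 ≤ (1 / 4) * (1.1 / (x + 1.1)) + (1 / 2) * (0.1 / (x + 0.1))
      + (1 / 4) * (-0.9 / (x + -0.9)) := by
    have p1 : (0 : ℝ) < x + 1.1 := by linarith
    have p2 : (0 : ℝ) < x + 0.1 := by linarith
    have p3 : (0 : ℝ) < x + -0.9 := by linarith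
    have q1 : (1 : ℝ) / 4 * (1.1 / (x + 1.1)) + (1 / 2) * (0.1 / (x + 0.1))
      + (1 / 4) * (-0.9 / (x + -0.9)) =
      (0.275 * (x + 0.1) * (x + -0.9) + 0.05 * (x + 1.1) * (x + -0.9)
        - 0.225 * (x + 1.1) * (x + 0.1)) / ((x + 1.1) * (x + 0.1) * (x + -0.9)) := by
      field_simp
      ring
    rw [q1]
    apply div_nonneg _ (by positivity)
    nlinarith
  nlinarith [mul_nonneg h4 h5]

lemma white_num {n : ℕ} (hn : 200 ≤ n) :
    0.986 * (0.12 * ((n : ℝ) - 2)) ^ (-(1 / 200 : ℝ)) ≤ (n : ℝ) ^ (-(1 / 200 : ℝ)) := by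
  have hn' : (200 : ℝ) ≤ n := by exact_mod_cast hn
  have p1 : (0 : ℝ) < 0.12 * ((n : ℝ) - 2) := by linarith
  have p2 : (0 : ℝ) < (n : ℝ) := by linarith
  have h9 : (n : ℝ) ≤ 9 * (0.12 * ((n : ℝ) - 2)) := by linarith
  have h1 : (n : ℝ) ^ (1 / 200 : ℝ) ≤ (500 / 493) * (0.12 * ((n : ℝ) - 2)) ^ (1 / 200 : ℝ) := by
    calc (n : ℝ) ^ (1 / 200 : ℝ) ≤ (9 * (0.12 * ((n : ℝ) - 2))) ^ (1 / 200 : ℝ) :=
          Real.rpow_le_rpow p2.le h9 (by norm_num)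
      _ = 9 ^ (1 / 200 : ℝ) * (0.12 * ((n : ℝ) - 2)) ^ (1 / 200 : ℝ) :=
          Real.mul_rpow (by norm_num) p1.le
      _ ≤ (500 / 493) * (0.12 * ((n : ℝ) - 2)) ^ (1 / 200 : ℝ) := by
          refine mul_le_mul_of_nonneg_right ?_ (Real.rpow_nonneg p1.le _)
          have h2 : (9 : ℝ) ≤ (500 / 493) ^ (200 : ℕ) := by norm_num
          calc (9 : ℝ) ^ (1 / 200 : ℝ) ≤ ((500 / 493) ^ (200 : ℕ)) ^ (1 / 200 : ℝ) :=
                Real.rpow_le_rpow (by norm_num) h2 (by norm_num)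
            _ = 500 / 493 := by
                rw [← Real.rpow_natCast, ← Real.rpow_mul (by norm_num)]
                norm_num
  rw [Real.rpow_neg p1.le, Real.rpow_neg p2.le]
  have q1 : 0 < (0.12 * ((n : ℝ) - 2)) ^ (1 / 200 : ℝ) := Real.rpow_pos_of_pos p1 _
  have q2 : 0 < (n : ℝ) ^ (1 / 200 : ℝ) := Real.rpow_pos_of_pos p2 _
  rw [← div_eq_mul_inv, div_le_iff₀ q1, ← div_eq_inv_mul, le_div_iff₀ q2]
  norm_num at h1 ⊢
  nlinarith

/-! ### the induction -/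

/-- the statement of the induction at level `V` -/
def Bd (ξ : ℤ) (R V : ℕ) : Prop :=
  ∀ l : ℕ, ∀ m : ℤ, 4 * m ≡ 2 ^ V * ξ [ZMOD 3 ^ (R + l)] → 2 * |m| < 3 ^ (R + l) →
    ((3 : ℤ) ^ (R + l) ≤ 13 * |m| →
      N ξ V l (R + l) ≤ ((R : ℝ) + 1) ^ (1 / 200 : ℝ) * ((R : ℝ) + l) ^ (-(1 / 200 : ℝ))) ∧
    (13 * |m| < 3 ^ (R + l) → ∀ J : ℕ, ∀ m' : ℤ, m = 4 ^ J * m' → ¬ (4 ∣ m') →
      N ξ V l (R + l) ≤ ((R : ℝ) + 1) ^ (1 / 200 : ℝ)
        * ((R : ℝ) + l - 1.1 * (J + 1)) ^ (-(1 / 200 : ℝ)))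

lemma rpow_anti {a b : ℝ} (ha : 0 < a) (hab : a ≤ b) :
    b ^ (-(1 / 200 : ℝ)) ≤ a ^ (-(1 / 200 : ℝ)) :=
  Real.rpow_le_rpow_of_nonpos ha hab (by norm_num)

lemma not_dvd_of_state (ξ m : ℤ) (V n : ℕ) (hn : 1 ≤ n) (hξ : ¬ (3 ∣ ξ))
    (hm : 4 * m ≡ 2 ^ V * ξ [ZMOD 3 ^ n]) : m ≠ 0 := by
  rintro rfl
  apply hξ
  have h1 : (3 : ℤ) ∣ 3 ^ n := dvd_pow_self 3 (by omega)
  have h2 : (3 : ℤ) ∣ 2 ^ V * ξ := by
    have h3 : (3 : ℤ) ^ n ∣ 2 ^ V * ξ - 4 * 0 := hm.dvd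
    simpa using h1.trans h3
  have h4 : IsCoprime (3 : ℤ) (2 ^ V) := by
    apply IsCoprime.pow_right
    exact ⟨1, -1, by norm_num⟩
  exact h4.dvd_of_dvd_mul_left h2

lemma black_pos {n J : ℕ} (h : 5 * (J + 1) < 4 * n) :
    0.12 * (n : ℝ) ≤ (n : ℝ) - 1.1 * (J + 1) := by
  have : (5 : ℝ) * (J + 1) < 4 * n := by exact_mod_cast h
  linarith

lemma bd_of_N_le_one (ξ : ℤ) (hξ : ¬ (3 ∣ ξ)) (R V l : ℕ) (hR : 200 ≤ R) (hl : l ≤ 1) (m : ℤ)
    (hm : 4 * m ≡ 2 ^ V * ξ [ZMOD 3 ^ (R + l)]) :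
    ((3 : ℤ) ^ (R + l) ≤ 13 * |m| →
      N ξ V l (R + l) ≤ ((R : ℝ) + 1) ^ (1 / 200 : ℝ) * ((R : ℝ) + l) ^ (-(1 / 200 : ℝ))) ∧
    (13 * |m| < 3 ^ (R + l) → ∀ J : ℕ, ∀ m' : ℤ, m = 4 ^ J * m' → ¬ (4 ∣ m') →
      N ξ V l (R + l) ≤ ((R : ℝ) + 1) ^ (1 / 200 : ℝ)
        * ((R : ℝ) + l - 1.1 * (J + 1)) ^ (-(1 / 200 : ℝ))) := by
  have hR' : (200 : ℝ) ≤ R := by exact_mod_cast hR
  have hl' : (l : ℝ) ≤ 1 := by exact_mod_cast hl
  have hl0 : (0 : ℝ) ≤ l := by positivity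
  have h0 : m ≠ 0 := not_dvd_of_state ξ m V (R + l) (by omega) hξ hm
  have gen : ∀ a : ℝ, 0 < a → a ≤ (R : ℝ) + 1 →
      N ξ V l (R + l) ≤ ((R : ℝ) + 1) ^ (1 / 200 : ℝ) * a ^ (-(1 / 200 : ℝ)) := by
    intro a ha hab
    refine (N_le_one ξ V l (R + l)).trans ?_
    have h1 := rpow_anti ha hab
    have h2 : 0 < ((R : ℝ) + 1) ^ (1 / 200 : ℝ) := Real.rpow_pos_of_pos (by linarith) _
    calc (1 : ℝ) = ((R : ℝ) + 1) ^ (1 / 200 : ℝ) * ((R : ℝ) + 1) ^ (-(1 / 200 : ℝ)) := by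
          rw [← Real.rpow_add (by linarith)]; norm_num
      _ ≤ _ := mul_le_mul_of_nonneg_left h1 h2.le
  constructor
  · intro _
    exact gen _ (by linarith) (by linarith)
  · intro hb J m' hJ _
    have hbl := black_pos (black_J m m' J (R + l) hJ h0 hb)
    push_cast at hbl
    have hJ0 : (0 : ℝ) ≤ J := by positivity
    exact gen _ (by nlinarith) (by nlinarith)

/-- every state gives a bound with the worst possible base -/
lemma bd_any (ξ : ℤ) (hξ : ¬ (3 ∣ ξ)) (R V l : ℕ) (hR : 200 ≤ R) (hB : Bd ξ R V) :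
    N ξ V l (R + l) ≤ ((R : ℝ) + 1) ^ (1 / 200 : ℝ)
      * (0.12 * ((R : ℝ) + l)) ^ (-(1 / 200 : ℝ)) := by
  have hR' : (200 : ℝ) ≤ R := by exact_mod_cast hR
  have hl0 : (0 : ℝ) ≤ l := by positivity
  have h2 : 0 ≤ ((R : ℝ) + 1) ^ (1 / 200 : ℝ) := Real.rpow_nonneg (by linarith) _
  obtain ⟨m, hm, hm2⟩ := exists_state (2 ^ V * ξ) (R + l)
  have h0 : m ≠ 0 := not_dvd_of_state ξ m V (R + l) (by omega) hξ hm
  obtain ⟨hw, hb⟩ := hB l m hm hm2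
  by_cases hc : (3 : ℤ) ^ (R + l) ≤ 13 * |m|
  · refine (hw hc).trans (mul_le_mul_of_nonneg_left (rpow_anti (by linarith) (by linarith)) h2)
  · push Not at hc
    obtain ⟨J, m', hJ, hJ'⟩ := exists_four_pow m h0
    have hbl := black_pos (black_J m m' J (R + l) hJ h0 hc)
    push_cast at hbl
    exact (hb hc J m' hJ hJ').trans
      (mul_le_mul_of_nonneg_left (rpow_anti (by linarith) hbl) h2)

/-- successor of a black state -/
lemma bd_black_next (ξ : ℤ) (R V l : ℕ) (hR : 200 ≤ R) (hB : Bd ξ R V)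
    (m m' : ℤ) (J κ : ℕ) (hκ : κ ≤ 2) (hm : m ≡ 2 ^ V * ξ [ZMOD 3 ^ (R + l + κ)])
    (hblack : 13 * |m| < 3 ^ (R + l + κ)) (hJ : m = 4 ^ J * m') (hJ' : ¬ (4 ∣ m'))
    (hpos : 0 < (R : ℝ) + l - 1.1 * J) :
    N ξ V l (R + l) ≤ ((R : ℝ) + 1) ^ (1 / 200 : ℝ)
      * ((R : ℝ) + l - 1.1 * J) ^ (-(1 / 200 : ℝ)) := by
  have hR' : (200 : ℝ) ≤ R := by exact_mod_cast hR
  have hl0 : (0 : ℝ) ≤ l := by positivity
  have hJ0 : (0 : ℝ) ≤ J := by positivity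
  have h2 : 0 ≤ ((R : ℝ) + 1) ^ (1 / 200 : ℝ) := Real.rpow_nonneg (by linarith) _
  have hm3 : m ≡ 2 ^ V * ξ [ZMOD 3 ^ (R + l)] :=
    hm.of_dvd (pow_dvd_pow 3 (by omega))
  have h3le : (3 : ℤ) ^ (R + l + κ) ≤ 9 * 3 ^ (R + l) := by
    rw [pow_add, mul_comm]
    have : (3 : ℤ) ^ κ ≤ 3 ^ 2 := by gcongr; norm_num
    have h3 : (0 : ℤ) < 3 ^ (R + l) := by positivity
    nlinarith
  have h3pos : (0 : ℤ) < 3 ^ (R + l) := by positivity
  rcases Nat.eq_zero_or_pos J with hJz | hJp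
  · -- the next state is white
    subst hJz
    obtain ⟨m1, hm1, hm1'⟩ := exists_state (2 ^ V * ξ) (R + l)
    obtain ⟨hw, -⟩ := hB l m1 hm1 hm1'
    have hcon : 4 * m1 ≡ m [ZMOD 3 ^ (R + l)] := hm1.trans hm3.symm
    obtain ⟨r, hr⟩ := hcon.dvd
    have hrne : r ≠ 0 := by
      rintro rfl
      apply hJ'
      have : m = 4 * m1 := by linarith
      rw [hJ] at this
      exact ⟨m1, by simpa using this⟩
    have hr1 : 1 ≤ |r| := Int.one_le_abs hrne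
    have hwhite : (3 : ℤ) ^ (R + l) ≤ 13 * |m1| := by
      have h4 : 3 ^ (R + l) * |r| ≤ |m| + 4 * |m1| := by
        have : (3 : ℤ) ^ (R + l) * r = m - 4 * m1 := by linarith
        have h5 : |(3 : ℤ) ^ (R + l) * r| = |m - 4 * m1| := by rw [this]
        rw [abs_mul, abs_of_pos h3pos] at h5
        rw [h5]
        calc |m - 4 * m1| ≤ |m| + |4 * m1| := abs_sub _ _
          _ = |m| + 4 * |m1| := by rw [abs_mul]; norm_num
      nlinarith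
    have := hw hwhite
    simpa using this
  · obtain ⟨J1, rfl⟩ : ∃ J1, J = J1 + 1 := ⟨J - 1, by omega⟩
    have hm4 : m = 4 * (4 ^ J1 * m') := by rw [hJ, pow_succ]; ring
    have hst : 4 * (4 ^ J1 * m') ≡ 2 ^ V * ξ [ZMOD 3 ^ (R + l)] := by rw [← hm4]; exact hm3
    have habs : |m| = 4 * |4 ^ J1 * m'| := by rw [hm4, abs_mul]; norm_num
    have hsz : 2 * |4 ^ J1 * m'| < 3 ^ (R + l) := by linarith
    obtain ⟨hw, hb⟩ := hB l (4 ^ J1 * m') hst hsz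
    by_cases hc : (3 : ℤ) ^ (R + l) ≤ 13 * |4 ^ J1 * m'|
    · refine (hw hc).trans (mul_le_mul_of_nonneg_left (rpow_anti hpos ?_) h2)
      push_cast
      nlinarith [show (0 : ℝ) ≤ J1 by positivity]
    · push Not at hc
      have := hb hc J1 m' rfl hJ'
      push_cast
      exact this

lemma bd_step (ξ : ℤ) (hξ : ¬ (3 ∣ ξ)) (R V : ℕ) (hR : 200 ≤ R) (hB : Bd ξ R V) :
    Bd ξ R (V + 2) := by
  have hR' : (200 : ℝ) ≤ R := by exact_mod_cast hR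
  intro l m hm hm2
  rcases Nat.lt_or_ge l 2 with hl | hl
  · exact bd_of_N_le_one ξ hξ R (V + 2) l hR (by omega) m hm
  obtain ⟨l, rfl⟩ : ∃ k, l = k + 2 := ⟨l - 2, by omega⟩
  have hl0 : (0 : ℝ) ≤ l := by positivity
  have h2 : 0 ≤ ((R : ℝ) + 1) ^ (1 / 200 : ℝ) := Real.rpow_nonneg (by linarith) _
  have h0 : m ≠ 0 := not_dvd_of_state ξ m (V + 2) (R + (l + 2)) (by omega) hξ hm
  -- the state is the residue of `2 ^ V * ξ`
  have hm3 : m ≡ 2 ^ V * ξ [ZMOD 3 ^ (R + (l + 2))] := by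
    have h4 : 4 * m ≡ 4 * (2 ^ V * ξ) [ZMOD 3 ^ (R + (l + 2))] := by
      have : (4 : ℤ) * (2 ^ V * ξ) = 2 ^ (V + 2) * ξ := by rw [pow_add]; ring
      rw [this]; exact hm
    have hcop : IsCoprime ((3 : ℤ) ^ (R + (l + 2))) 4 := by
      apply IsCoprime.pow_left
      exact ⟨-1, 1, by norm_num⟩
    rw [Int.modEq_iff_dvd] at h4 ⊢
    have : (4 : ℤ) * (2 ^ V * ξ) - 4 * m = 4 * (2 ^ V * ξ - m) := by ring
    rw [this] at h4
    exact hcop.dvd_of_dvd_mul_left h4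
  have hstep := N_two_step ξ V l (R + (l + 2))
  have e1 : R + (l + 2) - 1 = R + (l + 1) := by omega
  have e2 : R + (l + 2) - 2 = R + l := by omega
  rw [e1, e2] at hstep
  constructor
  · -- white
    intro hw
    have hK : K ((2 ^ V * ξ : ℝ) / 3 ^ (R + (l + 2))) ≤ 0.972 := by
      have := K_white (2 ^ V * ξ) m (R + (l + 2)) hm3 hw hm2
      push_cast at this
      exact this
    have hK0 := K_nonneg ((2 ^ V * ξ : ℝ) / 3 ^ (R + (l + 2)))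
    set A := ((R : ℝ) + 1) ^ (1 / 200 : ℝ) * (0.12 * ((R : ℝ) + l)) ^ (-(1 / 200 : ℝ)) with hA
    have hA0 : 0 ≤ A := mul_nonneg h2 (Real.rpow_nonneg (by linarith) _)
    have g0 : N ξ V l (R + l) ≤ A := bd_any ξ hξ R V l hR hB
    have g1 : N ξ V (l + 1) (R + (l + 1)) ≤ A := by
      refine (bd_any ξ hξ R V (l + 1) hR hB).trans
        (mul_le_mul_of_nonneg_left (rpow_anti (by linarith) ?_) h2)
      push_cast; linarith
    have g2 : N ξ V (l + 2) (R + (l + 2)) ≤ A := by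
      refine (bd_any ξ hξ R V (l + 2) hR hB).trans
        (mul_le_mul_of_nonneg_left (rpow_anti (by linarith) ?_) h2)
      push_cast; linarith
    have hN1 := N_nonneg ξ V (l + 1) (R + (l + 1))
    have hcomb : N ξ (V + 2) (l + 2) (R + (l + 2)) ≤ 0.986 * A := by
      have h5 : (1 / 2) * K ((2 ^ V * ξ : ℝ) / 3 ^ (R + (l + 2))) * N ξ V (l + 1) (R + (l + 1))
          ≤ (1 / 2) * 0.972 * A := by
        apply mul_le_mul (by linarith) g1 hN1 (by norm_num)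
      linarith
    refine hcomb.trans ?_
    have hnum := white_num (n := R + (l + 2)) (by omega)
    have e3 : ((R + (l + 2) : ℕ) : ℝ) - 2 = (R : ℝ) + l := by push_cast; ring
    rw [e3] at hnum
    calc 0.986 * A = ((R : ℝ) + 1) ^ (1 / 200 : ℝ)
          * (0.986 * (0.12 * ((R : ℝ) + l)) ^ (-(1 / 200 : ℝ))) := by rw [hA]; ring
      _ ≤ ((R : ℝ) + 1) ^ (1 / 200 : ℝ) * (((R + (l + 2) : ℕ) : ℝ)) ^ (-(1 / 200 : ℝ)) :=
          mul_le_mul_of_nonneg_left hnum h2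
      _ = _ := by push_cast; ring_nf
  · -- black
    intro hb J m' hJ hJ'
    have hK1 := K_le_one ((2 ^ V * ξ : ℝ) / 3 ^ (R + (l + 2)))
    have hbl := black_pos (black_J m m' J (R + (l + 2)) hJ h0 hb)
    push_cast at hbl
    set x : ℝ := (R : ℝ) + (l + 2) - 1.1 * (J + 1) with hx
    have hx21 : 21 ≤ x := by linarith
    have g0 := bd_black_next ξ R V l hR hB m m' J 2 le_rfl hm3 hb hJ hJ' (by linarith)
    have g1 := bd_black_next ξ R V (l + 1) hR hB m m' J 1 (by norm_num) hm3 hb hJ hJ'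
      (by push_cast; linarith)
    have g2 := bd_black_next ξ R V (l + 2) hR hB m m' J 0 (by norm_num) hm3 hb hJ hJ'
      (by push_cast; linarith)
    have f0 : (R : ℝ) + l - 1.1 * J = x + -0.9 := by rw [hx]; ring
    have f1 : (R : ℝ) + ((l + 1 : ℕ) : ℝ) - 1.1 * J = x + 0.1 := by rw [hx]; push_cast; ring
    have f2 : (R : ℝ) + ((l + 2 : ℕ) : ℝ) - 1.1 * J = x + 1.1 := by rw [hx]; push_cast; ring
    rw [f0] at g0
    rw [f1] at g1
    rw [f2] at g2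
    have hN1 := N_nonneg ξ V (l + 1) (R + (l + 1))
    have h5 : (1 / 2) * K ((2 ^ V * ξ : ℝ) / 3 ^ (R + (l + 2))) * N ξ V (l + 1) (R + (l + 1))
        ≤ (1 / 2) * N ξ V (l + 1) (R + (l + 1)) := by
      apply mul_le_mul_of_nonneg_right _ hN1
      linarith
    have hd := mul_le_mul_of_nonneg_left (drift hx21) h2
    have f3 : (R : ℝ) + ((l + 2 : ℕ) : ℝ) - 1.1 * ((J : ℝ) + 1) = x := by
      rw [hx]; push_cast; ring
    rw [f3]
    linarith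

lemma bd_all (ξ : ℤ) (hξ : ¬ (3 ∣ ξ)) (R : ℕ) (hR : 200 ≤ R) : ∀ V, Bd ξ R V
  | 0 => by
    intro l m hm hm2
    rcases Nat.lt_or_ge l 2 with hl | hl
    · exact bd_of_N_le_one ξ hξ R 0 l hR (by omega) m hm
    · have hz := N_of_lt ξ 0 l (R + l) (by omega)
      have hR' : (200 : ℝ) ≤ R := by exact_mod_cast hR
      have hl0 : (0 : ℝ) ≤ l := by positivity
      have h2 : 0 ≤ ((R : ℝ) + 1) ^ (1 / 200 : ℝ) := Real.rpow_nonneg (by linarith) _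
      have h0 : m ≠ 0 := not_dvd_of_state ξ m 0 (R + l) (by omega) hξ hm
      rw [hz]
      refine ⟨fun _ => mul_nonneg h2 (Real.rpow_nonneg (by linarith) _), fun hb J m' hJ _ => ?_⟩
      have hbl := black_pos (black_J m m' J (R + l) hJ h0 hb)
      push_cast at hbl
      exact mul_nonneg h2 (Real.rpow_nonneg (by linarith) _)
  | 1 => by
    intro l m hm hm2
    rcases Nat.lt_or_ge l 2 with hl | hl
    · exact bd_of_N_le_one ξ hξ R 1 l hR (by omega) m hm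
    · have hz := N_of_lt ξ 1 l (R + l) (by omega)
      have hR' : (200 : ℝ) ≤ R := by exact_mod_cast hR
      have hl0 : (0 : ℝ) ≤ l := by positivity
      have h2 : 0 ≤ ((R : ℝ) + 1) ^ (1 / 200 : ℝ) := Real.rpow_nonneg (by linarith) _
      have h0 : m ≠ 0 := not_dvd_of_state ξ m 1 (R + l) (by omega) hξ hm
      rw [hz]
      refine ⟨fun _ => mul_nonneg h2 (Real.rpow_nonneg (by linarith) _), fun hb J m' hJ _ => ?_⟩
      have hbl := black_pos (black_J m m' J (R + l) hJ h0 hb)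
      push_cast at hbl
      exact mul_nonneg h2 (Real.rpow_nonneg (by linarith) _)
  | V + 2 => bd_step ξ hξ R V hR (bd_all ξ hξ R hR V)

end M4

/-- module M4 -/
theorem whiteness : Whiteness := by
  refine ⟨1 / 200, by norm_num, (25 / 3 : ℝ) ^ (1 / 200 : ℝ), 200, fun R hR l V ξ hξ => ?_⟩
  have hR' : (200 : ℝ) ≤ R := by exact_mod_cast hR
  have hl0 : (0 : ℝ) ≤ l := by positivity
  have h1 := M4.bd_any ξ hξ R V l hR (M4.bd_all ξ hξ R hR V)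
  refine h1.trans (le_of_eq ?_)
  have p1 : (0 : ℝ) < (R : ℝ) + l := by linarith
  have p2 : (0 : ℝ) < (R : ℝ) + 1 := by linarith
  rw [Real.rpow_neg (by linarith), Real.mul_rpow (by norm_num) p1.le, Real.div_rpow p2.le p1.le]
  have q1 : (25 / 3 : ℝ) ^ (1 / 200 : ℝ) = ((0.12 : ℝ) ^ (1 / 200 : ℝ))⁻¹ := by
    rw [← Real.inv_rpow (by norm_num)]; norm_num
  rw [q1]
  have : (0.12 : ℝ) ^ (1 / 200 : ℝ) ≠ 0 := (Real.rpow_pos_of_pos (by norm_num) _).ne'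
  have h3 : ((R : ℝ) + l) ^ (1 / 200 : ℝ) ≠ 0 := (Real.rpow_pos_of_pos p1 _).ne'
  field_simp

end UKL
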