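import Mathlib

/-!
Sequential orthogonal systems: the vector `k` is a generic vector orthogonal to the earlier
vectors `j ∈ E k`. If every later set `E k` meets every initial segment `[0,i)` in at least
`|E i|` points, then such generic systems are as independent as possible.
-/

open Finset Matrix

namespace Pool.Agent.Lib_helper62

noncomputable section

set_option linter.unusedSectionVars false

variable {F : Type*} [Field F]

section Proj

variable {ι κ : Type*} [Fintype ι] [Fintype κ]

/-- Gram matrix of the vectors `u i`, `i ∈ S`. -/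
def gram (u : ℕ → ι → F) (S : Finset ℕ) : Matrix S S F :=
  Matrix.of fun i j => u i ⬝ᵥ u j

/-- A multiple of the projection of `v` to the orthogonal complement of `u i`, `i ∈ S`. -/
def proj (u : ℕ → ι → F) (S : Finset ℕ) (v : ι → F) : ι → F :=
  (gram u S).det • v - ∑ i : S, ((gram u S).adjugate *ᵥ fun j : S => u j ⬝ᵥ v) i • u i

theorem gram_congr {u u' : ℕ → ι → F} {S : Finset ℕ} (h : ∀ i ∈ S, u i = u' i) :
    gram u S = gram u' S := by
  ext i j
  simp only [gram, Matrix.of_apply]
  rw [h i i.2, h j j.2]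

theorem proj_congr {u u' : ℕ → ι → F} {S : Finset ℕ} (h : ∀ i ∈ S, u i = u' i) (v : ι → F) :
    proj u S v = proj u' S v := by
  have h1 : (fun j : S => u j ⬝ᵥ v) = fun j : S => u' j ⬝ᵥ v := by
    funext j; rw [h j j.2]
  unfold proj
  rw [gram_congr h, h1]
  congr 1
  exact Finset.sum_congr rfl fun i _ => by rw [h i i.2]

theorem dot_proj (u : ℕ → ι → F) (S : Finset ℕ) (v : ι → F) {j : ℕ} (hj : j ∈ S) :
    u j ⬝ᵥ proj u S v = 0 := by
  set b : S → F := fun j => u j ⬝ᵥ v with hb
  set c : S → F := (gram u S).adjugate *ᵥ b with hc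
  have h1 : (gram u S) *ᵥ c = (gram u S).det • b := by
    rw [hc, Matrix.mulVec_mulVec, Matrix.mul_adjugate, Matrix.smul_mulVec, Matrix.one_mulVec]
  have h2 := congrFun h1 ⟨j, hj⟩
  have h3 : ((gram u S) *ᵥ c) ⟨j, hj⟩ = ∑ i : S, (u j ⬝ᵥ u i) * c i := rfl
  rw [h3] at h2
  unfold proj
  rw [dotProduct_sub, dotProduct_smul, dotProduct_sum]
  simp only [dotProduct_smul, smul_eq_mul]
  have h4 : ∑ i : S, c i * (u j ⬝ᵥ u i) = ∑ i : S, (u j ⬝ᵥ u i) * c i :=
    Finset.sum_congr rfl fun i _ => mul_comm _ _
  rw [h4, h2]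
  simp [hb]

theorem proj_of_orth {u : ℕ → ι → F} {S : Finset ℕ} {v : ι → F} (h : ∀ j ∈ S, u j ⬝ᵥ v = 0) :
    proj u S v = (gram u S).det • v := by
  have h1 : (fun j : S => u j ⬝ᵥ v) = 0 := by
    funext j; exact h j j.2
  unfold proj
  rw [h1, Matrix.mulVec_zero]
  simp

/-- A vector orthogonal to the orthogonal complement of a nondegenerate system is in its span. -/
theorem mem_span_of_orth_orth {u : ℕ → ι → F} {S : Finset ℕ} (hdet : (gram u S).det ≠ 0)
    {w : ι → F} (hw : ∀ v : ι → F, (∀ j ∈ S, u j ⬝ᵥ v = 0) → w ⬝ᵥ v = 0) :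
    w ∈ Submodule.span F (u '' (S : Set ℕ)) := by
  set z : ι → F := ∑ j : S, (∑ i : S, (w ⬝ᵥ u i) * (gram u S).adjugate i j) • u j with hz
  have key : (gram u S).det • w = z := by
    have h1 : ∀ v : ι → F, ((gram u S).det • w - z) ⬝ᵥ v = 0 := by
      intro v
      have h2 := hw (proj u S v) (fun j hj => dot_proj u S v hj)
      unfold proj at h2
      rw [dotProduct_sub, dotProduct_smul, dotProduct_sum] at h2
      rw [sub_dotProduct, smul_dotProduct, hz, sum_dotProduct]
      have h3 : ∑ j : S, ((∑ i : S, (w ⬝ᵥ u i) * (gram u S).adjugate i j) • u j) ⬝ᵥ v =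
          ∑ i : S, w ⬝ᵥ (((gram u S).adjugate *ᵥ fun j : S => u j ⬝ᵥ v) i • u i) := by
        simp only [dotProduct_smul, smul_dotProduct, smul_eq_mul]
        have h4 : ∀ i : S, ((gram u S).adjugate *ᵥ fun j : S => u j ⬝ᵥ v) i =
            ∑ j : S, (gram u S).adjugate i j * (u j ⬝ᵥ v) := fun i => rfl
        simp only [h4]
        generalize (gram u S).adjugate = A
        simp only [Finset.sum_mul]
        rw [Finset.sum_comm]
        refine Finset.sum_congr rfl fun i _ => Finset.sum_congr rfl fun j _ => ?_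
        generalize u j ⬝ᵥ v = b
        generalize w ⬝ᵥ u i = a
        ring
      rw [h3]
      exact h2
    have h2 := dotProduct_eq_zero_iff.mp h1
    exact sub_eq_zero.mp h2
  have hzs : z ∈ Submodule.span F (u '' (S : Set ℕ)) := by
    rw [hz]
    refine Submodule.sum_mem _ fun j _ => Submodule.smul_mem _ _ (Submodule.subset_span ?_)
    exact ⟨j, j.2, rfl⟩
  have : w = ((gram u S).det)⁻¹ • z := by
    rw [← key, smul_smul, inv_mul_cancel₀ hdet, one_smul]
  rw [this]
  exact Submodule.smul_mem _ _ hzs

/-- Compatibility with linear isometric embeddings. -/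
theorem proj_map (T : (ι → F) →ₗ[F] (κ → F)) (hT : ∀ v w, T v ⬝ᵥ T w = v ⬝ᵥ w)
    (u : ℕ → ι → F) (S : Finset ℕ) (v : ι → F) :
    proj (fun i => T (u i)) S (T v) = T (proj u S v) := by
  have h1 : gram (fun i => T (u i)) S = gram u S := by
    ext i j; simp only [gram, Matrix.of_apply, hT]
  unfold proj
  rw [h1]
  simp only [hT, map_sub, map_smul, map_sum]

end Proj

section Vec

variable {ι κ : Type*} [Fintype ι] [Fintype κ]

/-- The sequential system with parameters `g`. -/
def vec (E : ℕ → Finset ℕ) (g : ℕ → ι → F) (k : ℕ) : ι → F :=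
  proj (fun j => if _h : j < k then vec E g j else 0) (E k) (g k)
termination_by k

theorem vec_eq {E : ℕ → Finset ℕ} {k : ℕ} (hE : E k ⊆ Finset.range k) (g : ℕ → ι → F) :
    vec E g k = proj (vec E g) (E k) (g k) := by
  rw [vec]
  refine proj_congr (fun i hi => ?_) _
  have : i < k := Finset.mem_range.mp (hE hi)
  simp [this]

theorem vec_congr {E : ℕ → Finset ℕ} {g g' : ℕ → ι → F} (k : ℕ) (h : ∀ j ≤ k, g j = g' j) :
    vec E g k = vec E g' k := by
  induction k using Nat.strong_induction_on with
  | _ k ih =>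
    rw [vec, vec, h k le_rfl]
    refine congrArg (fun f => proj f (E k) (g' k)) (funext fun j => ?_)
    by_cases hj : j < k
    · simp only [hj, dif_pos]
      exact ih j hj fun i hi => h i (hi.trans hj.le)
    · simp only [hj, dif_neg, not_false_iff]

theorem vec_map (T : (ι → F) →ₗ[F] (κ → F)) (hT : ∀ v w, T v ⬝ᵥ T w = v ⬝ᵥ w)
    (E : ℕ → Finset ℕ) (g : ℕ → ι → F) (k : ℕ) :
    vec E (fun i => T (g i)) k = T (vec E g k) := by
  induction k using Nat.strong_induction_on with
  | _ k ih =>
    rw [vec, vec, ← proj_map T hT]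
    refine congrArg (fun f => proj f (E k) (T (g k))) (funext fun j => ?_)
    by_cases hj : j < k
    · simp only [hj, dif_pos]
      exact ih j hj
    · simp only [hj, dif_neg, not_false_iff, map_zero]

end Vec

section Poly

variable {D : ℕ}

variable (F D) in
/-- Functions of the parameters that are polynomial. -/
def PF : Subalgebra F ((ℕ → Fin D → F) → F) :=
  (MvPolynomial.aeval (fun (s : ℕ × Fin D) (g : ℕ → Fin D → F) => g s.1 s.2) :
    MvPolynomial (ℕ × Fin D) F →ₐ[F] ((ℕ → Fin D → F) → F)).range

theorem coord_mem_PF (k : ℕ) (c : Fin D) : (fun g : ℕ → Fin D → F => g k c) ∈ PF F D :=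
  ⟨MvPolynomial.X (k, c), by simp⟩

theorem const_mem_PF (a : F) : (fun _ : ℕ → Fin D → F => a) ∈ PF F D :=
  (PF F D).algebraMap_mem a

theorem mul_mem_PF {f h : (ℕ → Fin D → F) → F} (hf : f ∈ PF F D) (hh : h ∈ PF F D) :
    (fun g => f g * h g) ∈ PF F D := (PF F D).mul_mem hf hh

theorem add_mem_PF {f h : (ℕ → Fin D → F) → F} (hf : f ∈ PF F D) (hh : h ∈ PF F D) :
    (fun g => f g + h g) ∈ PF F D := (PF F D).add_mem hf hh

theorem sub_mem_PF {f h : (ℕ → Fin D → F) → F} (hf : f ∈ PF F D) (hh : h ∈ PF F D) :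
    (fun g => f g - h g) ∈ PF F D := (PF F D).sub_mem hf hh

theorem sum_mem_PF {α : Type*} (s : Finset α) {f : α → (ℕ → Fin D → F) → F}
    (hf : ∀ a ∈ s, f a ∈ PF F D) : (fun g => ∑ a ∈ s, f a g) ∈ PF F D := by
  have := (PF F D).sum_mem hf
  convert this using 1
  funext g
  simp

theorem prod_mem_PF {α : Type*} (s : Finset α) {f : α → (ℕ → Fin D → F) → F}
    (hf : ∀ a ∈ s, f a ∈ PF F D) : (fun g => ∏ a ∈ s, f a g) ∈ PF F D := by
  have := (PF F D).prod_mem hf
  convert this using 1
  funext g
  simp

theorem det_mem_PF {m : Type*} [Fintype m] [DecidableEq m]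
    (A : (ℕ → Fin D → F) → Matrix m m F) (h : ∀ i j, (fun g => A g i j) ∈ PF F D) :
    (fun g => (A g).det) ∈ PF F D := by
  simp only [Matrix.det_apply']
  refine sum_mem_PF _ fun σ _ => ?_
  refine mul_mem_PF (const_mem_PF _) ?_
  exact prod_mem_PF _ fun i _ => h _ _

/-- A polynomial function given by a nonzero polynomial, and conversely. -/
theorem exists_poly {f : (ℕ → Fin D → F) → F} (hf : f ∈ PF F D) :
    ∃ P : MvPolynomial (ℕ × Fin D) F, ∀ g, f g = MvPolynomial.eval (fun s => g s.1 s.2) P := by
  obtain ⟨P, rfl⟩ := hf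
  refine ⟨P, fun g => ?_⟩
  have h1 : ((Pi.evalAlgHom F (fun _ : ℕ → Fin D → F => F) g).comp
      (MvPolynomial.aeval (fun (s : ℕ × Fin D) (g : ℕ → Fin D → F) => g s.1 s.2))) =
      MvPolynomial.aeval (fun s : ℕ × Fin D => g s.1 s.2) := by
    ext s
    simp
  have h2 := congrArg (fun φ => φ P) h1
  simpa using h2

variable [Infinite F]

/-- Finitely many polynomial functions, none identically zero, have a common nonzero. -/
theorem exists_common {α : Type*} (s : Finset α) {f : α → (ℕ → Fin D → F) → F}
    (hf : ∀ a ∈ s, f a ∈ PF F D) (hne : ∀ a ∈ s, ∃ g, f a g ≠ 0) :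
    ∃ g, ∀ a ∈ s, f a g ≠ 0 := by
  classical
  have h1 : ∀ a ∈ s, ∃ P : MvPolynomial (ℕ × Fin D) F,
      ∀ g, f a g = MvPolynomial.eval (fun s => g s.1 s.2) P := fun a ha => exists_poly (hf a ha)
  choose! P hP using h1
  have h2 : ∀ a ∈ s, P a ≠ 0 := by
    intro a ha h0
    obtain ⟨g, hg⟩ := hne a ha
    apply hg
    rw [hP a ha, h0, map_zero]
  have h3 : ∏ a ∈ s, P a ≠ 0 := Finset.prod_ne_zero_iff.mpr h2
  have h4 : ∃ x : ℕ × Fin D → F, MvPolynomial.eval x (∏ a ∈ s, P a) ≠ 0 := by
    by_contra hcon
    push Not at hcon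
    exact h3 (MvPolynomial.funext fun x => by rw [hcon x, map_zero])
  obtain ⟨x, hx⟩ := h4
  refine ⟨fun k c => x (k, c), fun a ha => ?_⟩
  rw [map_prod] at hx
  have := Finset.prod_ne_zero_iff.mp hx a ha
  rw [hP a ha]
  exact this

theorem exists_common₂ {f h : (ℕ → Fin D → F) → F} (hf : f ∈ PF F D) (hh : h ∈ PF F D)
    (hf' : ∃ g, f g ≠ 0) (hh' : ∃ g, h g ≠ 0) : ∃ g, f g ≠ 0 ∧ h g ≠ 0 := by
  obtain ⟨g, hg⟩ := exists_common (F := F) (D := D) (Finset.univ : Finset Bool)
    (f := fun b => if b then f else h)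
    (by intro b _; cases b <;> simpa) (by intro b _; cases b <;> simpa)
  exact ⟨g, by simpa using hg true (Finset.mem_univ _), by simpa using hg false (Finset.mem_univ _)⟩

end Poly

section VecPoly

variable {D : ℕ}

theorem dot_mem_PF {v w : (ℕ → Fin D → F) → Fin D → F}
    (hv : ∀ c, (fun g => v g c) ∈ PF F D) (hw : ∀ c, (fun g => w g c) ∈ PF F D) :
    (fun g => v g ⬝ᵥ w g) ∈ PF F D := by
  unfold dotProduct
  exact sum_mem_PF _ fun c _ => mul_mem_PF (hv c) (hw c)

theorem vec_mem_PF (E : ℕ → Finset ℕ) (k : ℕ) (c : Fin D) :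
    (fun g : ℕ → Fin D → F => vec E g k c) ∈ PF F D := by
  induction k using Nat.strong_induction_on generalizing c with
  | _ k ih =>
    have hw : ∀ (j : ℕ) (c : Fin D), (fun g : ℕ → Fin D → F =>
        (if _h : j < k then vec E g j else 0 : Fin D → F) c) ∈ PF F D := by
      intro j c
      by_cases hj : j < k
      · simp only [hj, dif_pos]
        exact ih j hj c
      · simp only [hj, dif_neg, not_false_iff]
        exact const_mem_PF 0
    have hgram : ∀ i j : E k, (fun g : ℕ → Fin D → F =>
        gram (fun j => if _h : j < k then vec E g j else 0) (E k) i j) ∈ PF F D := by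
      intro i j
      exact dot_mem_PF (hw i) (hw j)
    have hadj : ∀ i j : E k, (fun g : ℕ → Fin D → F =>
        (gram (fun j => if _h : j < k then vec E g j else 0) (E k)).adjugate i j) ∈ PF F D := by
      intro i j
      simp only [Matrix.adjugate_apply]
      refine det_mem_PF _ fun a b => ?_
      by_cases ha : a = j
      · subst ha
        simp only [Matrix.updateRow_self]
        exact const_mem_PF _
      · simp only [Matrix.updateRow_ne ha]
        exact hgram a b
    have hg : ∀ c, (fun g : ℕ → Fin D → F => g k c) ∈ PF F D := fun c => coord_mem_PF k c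
    have h1 : ∀ g : ℕ → Fin D → F, vec E g k c =
        (gram (fun j => if _h : j < k then vec E g j else 0) (E k)).det * g k c -
          ∑ i : E k, (∑ j : E k,
            (gram (fun j => if _h : j < k then vec E g j else 0) (E k)).adjugate i j *
              ((if _h : (j : ℕ) < k then vec E g j else 0 : Fin D → F) ⬝ᵥ g k)) *
            (if _h : (i : ℕ) < k then vec E g i else 0 : Fin D → F) c := by
      intro g
      rw [vec, proj]
      simp only [Pi.sub_apply, Pi.smul_apply, smul_eq_mul, Finset.sum_apply]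
      rfl
    simp only [h1]
    refine sub_mem_PF (mul_mem_PF (det_mem_PF _ hgram) (hg c)) ?_
    refine sum_mem_PF _ fun i _ => mul_mem_PF (sum_mem_PF _ fun j _ => ?_) (hw i c)
    exact mul_mem_PF (hadj i j) (dot_mem_PF (hw j) hg)

end VecPoly

section Mix

variable {ι : Type*} [Fintype ι]

/-- The matrix of inner products of the systems indexed by `X` and by `Y`. -/
def mix (u : ℕ → ι → F) {m : ℕ} {X Y : Finset ℕ} (hX : X.card = m) (hY : Y.card = m) :
    Matrix (Fin m) (Fin m) F :=
  Matrix.of fun a b => u (X.orderEmbOfFin hX a) ⬝ᵥ u (Y.orderEmbOfFin hY b)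

theorem image_eq_range (u : ℕ → ι → F) {m : ℕ} {X : Finset ℕ} (hX : X.card = m) :
    u '' (X : Set ℕ) = Set.range fun a : Fin m => u (X.orderEmbOfFin hX a) := by
  have h := X.range_orderEmbOfFin hX
  rw [← h, ← Set.range_comp]
  rfl

theorem linearIndepOn_iff (u : ℕ → ι → F) {m : ℕ} {X : Finset ℕ} (hX : X.card = m) :
    LinearIndepOn F u (X : Set ℕ) ↔
      LinearIndependent F fun a : Fin m => u (X.orderEmbOfFin hX a) := by
  unfold LinearIndepOn
  rw [← linearIndependent_equiv (X.orderIsoOfFin hX).toEquiv]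
  rfl

theorem mix_nondeg {u : ℕ → ι → F} {m : ℕ} {X Y : Finset ℕ} {hX : X.card = m} {hY : Y.card = m}
    (h : (mix u hX hY).det ≠ 0) {w : ι → F} (hw : w ∈ Submodule.span F (u '' (X : Set ℕ)))
    (hwY : ∀ y ∈ Y, w ⬝ᵥ u y = 0) : w = 0 := by
  rw [image_eq_range u hX, Submodule.mem_span_range_iff_exists_fun] at hw
  obtain ⟨c, rfl⟩ := hw
  have h1 : c ᵥ* (mix u hX hY) = 0 := by
    funext b
    have h2 := hwY _ (Y.orderEmbOfFin_mem hY b)
    rw [sum_dotProduct] at h2
    simp only [smul_dotProduct, smul_eq_mul] at h2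
    simpa [Matrix.vecMul, dotProduct, mix] using h2
  have h3 : c = 0 := Matrix.eq_zero_of_vecMul_eq_zero h h1
  simp [h3]

theorem mix_indep_left {u : ℕ → ι → F} {m : ℕ} {X Y : Finset ℕ} {hX : X.card = m}
    {hY : Y.card = m} (h : (mix u hX hY).det ≠ 0) : LinearIndepOn F u (X : Set ℕ) := by
  rw [linearIndepOn_iff u hX, Fintype.linearIndependent_iff]
  intro c hc
  have h1 : c ᵥ* (mix u hX hY) = 0 := by
    funext b
    have h2 : (∑ a, c a • u (X.orderEmbOfFin hX a)) ⬝ᵥ u (Y.orderEmbOfFin hY b) = 0 := by
      rw [hc, zero_dotProduct]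
    rw [sum_dotProduct] at h2
    simp only [smul_dotProduct, smul_eq_mul] at h2
    simpa [Matrix.vecMul, dotProduct, mix] using h2
  have h3 : c = 0 := Matrix.eq_zero_of_vecMul_eq_zero h h1
  intro i
  rw [h3, Pi.zero_apply]

theorem mix_transpose (u : ℕ → ι → F) {m : ℕ} {X Y : Finset ℕ} (hX : X.card = m)
    (hY : Y.card = m) : (mix u hX hY)ᵀ = mix u hY hX := by
  ext a b
  simp [mix, dotProduct_comm]

theorem mix_indep_right {u : ℕ → ι → F} {m : ℕ} {X Y : Finset ℕ} {hX : X.card = m}
    {hY : Y.card = m} (h : (mix u hX hY).det ≠ 0) : LinearIndepOn F u (Y : Set ℕ) := by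
  refine mix_indep_left (hY := hX) (hX := hY) ?_
  rw [← mix_transpose, Matrix.det_transpose]
  exact h

theorem gram_det_eq (u : ℕ → ι → F) {m : ℕ} {X : Finset ℕ} (hX : X.card = m) :
    (gram u X).det = (mix u hX hX).det := by
  have h : mix u hX hX = (gram u X).submatrix (X.orderIsoOfFin hX).toEquiv
      (X.orderIsoOfFin hX).toEquiv := by
    ext a b
    rfl
  rw [h, Matrix.det_submatrix_equiv_self]

theorem det_mix_square {m : ℕ} (u : ℕ → Fin m → F) {X Y : Finset ℕ} (hX : X.card = m)
    (hY : Y.card = m) (h1 : LinearIndepOn F u (X : Set ℕ)) (h2 : LinearIndepOn F u (Y : Set ℕ)) :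
    (mix u hX hY).det ≠ 0 := by
  have h3 : mix u hX hY = (Matrix.of fun a : Fin m => u (X.orderEmbOfFin hX a)) *
      (Matrix.of fun a : Fin m => u (Y.orderEmbOfFin hY a))ᵀ := by
    ext a b
    simp [mix, Matrix.mul_apply, dotProduct]
  have key : ∀ {Z : Finset ℕ} (hZ : Z.card = m), LinearIndepOn F u (Z : Set ℕ) →
      (Matrix.of fun a : Fin m => u (Z.orderEmbOfFin hZ a)).det ≠ 0 := by
    intro Z hZ hi
    rw [linearIndepOn_iff u hZ] at hi
    have h4 : IsUnit (Matrix.of fun a : Fin m => u (Z.orderEmbOfFin hZ a)) :=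
      Matrix.linearIndependent_rows_iff_isUnit.mp hi
    exact ((Matrix.isUnit_iff_isUnit_det _).mp h4).ne_zero
  rw [h3, Matrix.det_mul, Matrix.det_transpose]
  exact mul_ne_zero (key hX h1) (key hY h2)

end Mix

section Good

/-- `X ⊆ [0,p)` meets every initial segment `[0,i)`, `i < p`, in at least `|E i|` points. -/
def Good (E : ℕ → Finset ℕ) (p : ℕ) (X : Finset ℕ) : Prop :=
  X ⊆ Finset.range p ∧ ∀ i < p, (E i).card ≤ (X.filter (· < i)).card

theorem Good.mono {E : ℕ → Finset ℕ} {p : ℕ} {X Y : Finset ℕ} (h : Good E p X) (hXY : X ⊆ Y)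
    (hY : Y ⊆ Finset.range p) : Good E p Y :=
  ⟨hY, fun i hi => (h.2 i hi).trans (Finset.card_le_card (Finset.filter_subset_filter _ hXY))⟩

/-- A nonzero vector orthogonal to fewer vectors than the dimension. -/
theorem exists_orth {m : ℕ} (u : ℕ → Fin (m + 1) → F) {X : Finset ℕ} (hX : X.card ≤ m) :
    ∃ w : Fin (m + 1) → F, w ≠ 0 ∧ ∀ x ∈ X, w ⬝ᵥ u x = 0 := by
  let T : (Fin (m + 1) → F) →ₗ[F] (X → F) :=
    { toFun := fun w x => w ⬝ᵥ u x
      map_add' := fun a b => by funext x; exact add_dotProduct _ _ _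
      map_smul' := fun a b => by funext x; simp [smul_dotProduct] }
  have hT : LinearMap.ker T ≠ ⊥ := by
    refine LinearMap.ker_ne_bot_of_finrank_lt ?_
    simp only [Module.finrank_fintype_fun_eq_card, Fintype.card_coe, Fintype.card_fin]
    omega
  obtain ⟨w, hw, hw0⟩ := (Submodule.ne_bot_iff _).mp hT
  exact ⟨w, hw0, fun x hx => congrFun (LinearMap.mem_ker.mp hw) ⟨x, hx⟩⟩

variable [Infinite F]

theorem mix_mem_PF {D : ℕ} (E : ℕ → Finset ℕ) {m : ℕ} {X Y : Finset ℕ} (hX : X.card = m)
    (hY : Y.card = m) : (fun g : ℕ → Fin D → F => (mix (vec E g) hX hY).det) ∈ PF F D :=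
  det_mem_PF _ fun _ _ => dot_mem_PF (vec_mem_PF E _) (vec_mem_PF E _)

/-- The embedding `F^D → F^(D+1)` by a zero coordinate. -/
def pad (D : ℕ) : (Fin D → F) →ₗ[F] (Fin (D + 1) → F) where
  toFun v := Matrix.vecCons 0 v
  map_add' a b := by simp
  map_smul' a b := by simp

theorem pad_dot (D : ℕ) (v w : Fin D → F) : pad D v ⬝ᵥ pad D w = v ⬝ᵥ w := by
  simp [pad]

/-- The statement of the main lemma at level `p`. -/
def Level (F : Type*) [Field F] (E : ℕ → Finset ℕ) (p : ℕ) : Prop :=
  ∀ (m : ℕ) (X : Finset ℕ), X.card = m → Good E p X →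
    ∃ g : ℕ → Fin m → F, LinearIndepOn F (vec E g) (X : Set ℕ)

theorem Level.mix {E : ℕ → Finset ℕ} {p : ℕ} (hL : Level F E p) {m : ℕ} {X Y : Finset ℕ}
    (hX : X.card = m) (hY : Y.card = m) (gX : Good E p X) (gY : Good E p Y) {D : ℕ}
    (hD : m ≤ D) : ∃ g : ℕ → Fin D → F, (mix (vec E g) hX hY).det ≠ 0 := by
  induction D, hD using Nat.le_induction with
  | base =>
    obtain ⟨g1, h1⟩ := hL m X hX gX
    obtain ⟨g2, h2⟩ := hL m Y hY gY
    obtain ⟨g, h3, h4⟩ := exists_common₂ (mix_mem_PF E hX hX) (mix_mem_PF E hY hY)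
      ⟨g1, det_mix_square (vec E g1) hX hX h1 h1⟩ ⟨g2, det_mix_square (vec E g2) hY hY h2 h2⟩
    exact ⟨g, det_mix_square (vec E g) hX hY (mix_indep_left h3) (mix_indep_left h4)⟩
  | succ D hD ih =>
    obtain ⟨g, hg⟩ := ih
    refine ⟨fun k => pad D (g k), ?_⟩
    have h1 : Lib_helper62.mix (vec E fun k => pad D (g k)) hX hY =
        Lib_helper62.mix (vec E g) hX hY := by
      ext a b
      simp only [Lib_helper62.mix, Matrix.of_apply]
      rw [vec_map (pad D) (pad_dot D), vec_map (pad D) (pad_dot D), pad_dot]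
    rw [h1]
    exact hg

/-- Changing the last parameter to a vector `v` orthogonal to the earlier vectors in `E p`. -/
theorem vec_update {D : ℕ} {E : ℕ → Finset ℕ} {p : ℕ} (hE : E p ⊆ Finset.range p)
    (g : ℕ → Fin D → F) {v : Fin D → F} (hv : ∀ j ∈ E p, vec E g j ⬝ᵥ v = 0) :
    (∀ j < p, vec E (Function.update g p v) j = vec E g j) ∧
      vec E (Function.update g p v) p = (gram (vec E g) (E p)).det • v := by
  have h1 : ∀ j < p, vec E (Function.update g p v) j = vec E g j := by
    intro j hj
    refine vec_congr j fun i hi => ?_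
    have : i ≠ p := by omega
    simp [this]
  refine ⟨h1, ?_⟩
  have h2 : ∀ j ∈ E p, vec E (Function.update g p v) j = vec E g j := fun j hj =>
    h1 j (Finset.mem_range.mp (hE hj))
  rw [vec_eq hE, Function.update_self, proj_congr h2, proj_of_orth hv]

theorem level_succ {E : ℕ → Finset ℕ} {p : ℕ} (hp : Good E p (E p)) (hL : Level F E p) :
    Level F E (p + 1) := by
  intro m X hX gX
  by_cases hpX : p ∈ X
  · obtain ⟨m, rfl⟩ : ∃ k, m = k + 1 := by
      refine ⟨m - 1, ?_⟩
      have := Finset.card_pos.mpr ⟨p, hpX⟩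
      omega
    set X₀ := X.erase p with hX₀
    have hcard : X₀.card = m := by
      rw [hX₀, Finset.card_erase_of_mem hpX, hX]; rfl
    have hsub : X₀ ⊆ Finset.range p := by
      intro x hx
      have h1 := Finset.mem_range.mp (gX.1 (Finset.mem_of_mem_erase hx))
      have h2 := Finset.ne_of_mem_erase hx
      exact Finset.mem_range.mpr (by omega)
    have hfil : ∀ i ≤ p, X.filter (· < i) = X₀.filter (· < i) := by
      intro i hi
      ext x
      simp only [Finset.mem_filter, hX₀, Finset.mem_erase]
      constructor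
      · rintro ⟨h1, h2⟩
        exact ⟨⟨by omega, h1⟩, h2⟩
      · rintro ⟨⟨_, h1⟩, h2⟩
        exact ⟨h1, h2⟩
    have gX₀ : Good E p X₀ := ⟨hsub, fun i hi => by
      rw [← hfil i hi.le]; exact gX.2 i (by omega)⟩
    have hEp : (E p).card ≤ m := by
      have h1 := gX.2 p (by omega)
      rw [hfil p le_rfl] at h1
      have h2 := Finset.card_filter_le X₀ (· < p)
      omega
    have hmp : m ≤ (Finset.range p).card := by
      rw [← hcard]; exact Finset.card_le_card hsub
    obtain ⟨Y, hY1, hY2, hYc⟩ := Finset.exists_subsuperset_card_eq hp.1 hEp hmp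
    have gY : Good E p Y := hp.mono hY1 hY2
    obtain ⟨g, hg1, hg2⟩ := exists_common₂ (D := m + 1) (mix_mem_PF E hYc hcard)
      (mix_mem_PF E (X := E p) (Y := E p) rfl rfl)
      (hL.mix hYc hcard gY gX₀ (Nat.le_succ m)) (hL.mix rfl rfl hp hp (by omega))
    set u := vec E g with hu
    have hdet : (gram u (E p)).det ≠ 0 := by
      rw [gram_det_eq u (X := E p) rfl]; exact hg2
    have hex : ∃ v : Fin (m + 1) → F, (∀ j ∈ E p, u j ⬝ᵥ v = 0) ∧
        v ∉ Submodule.span F (u '' (X₀ : Set ℕ)) := by
      by_contra hcon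
      push Not at hcon
      obtain ⟨w, hw0, hw⟩ := exists_orth u hcard.le
      apply hw0
      refine mix_nondeg hg1 (w := w) ?_ hw
      have h1 : w ∈ Submodule.span F (u '' (E p : Set ℕ)) := by
        refine mem_span_of_orth_orth hdet fun v hv => ?_
        have h2 := hcon v hv
        refine Submodule.span_induction (p := fun v _ => w ⬝ᵥ v = 0) ?_ ?_ ?_ ?_ h2
        · rintro _ ⟨x, hx, rfl⟩
          exact hw x hx
        · exact dotProduct_zero _
        · intro a b _ _ ha hb
          rw [dotProduct_add, ha, hb, add_zero]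
        · intro c a _ ha
          rw [dotProduct_smul, ha, smul_zero]
      exact Submodule.span_mono (Set.image_mono (by exact_mod_cast hY1)) h1
    obtain ⟨v, hv1, hv2⟩ := hex
    obtain ⟨hu1, hu2⟩ := vec_update hp.1 g hv1
    refine ⟨Function.update g p v, ?_⟩
    have hXins : (X : Set ℕ) = insert p (X₀ : Set ℕ) := by
      rw [hX₀, ← Finset.coe_insert, Finset.insert_erase hpX]
    have hpX₀ : p ∉ (X₀ : Set ℕ) := by
      simp [hX₀]
    have himg : (vec E (Function.update g p v)) '' (X₀ : Set ℕ) = u '' (X₀ : Set ℕ) := by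
      refine Set.image_congr fun x hx => ?_
      exact hu1 x (Finset.mem_range.mp (hsub hx))
    rw [hXins, linearIndepOn_insert hpX₀]
    constructor
    · refine (mix_indep_right hg1).congr ?_
      intro x hx
      exact (hu1 x (Finset.mem_range.mp (hsub hx))).symm
    · rw [himg, hu2]
      intro hmem
      apply hv2
      have h5 := Submodule.smul_mem _ ((gram u (E p)).det)⁻¹ hmem
      rwa [smul_smul, inv_mul_cancel₀ hdet, one_smul] at h5
  · refine hL m X hX ⟨fun x hx => ?_, fun i hi => gX.2 i (by omega)⟩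
    have h1 := Finset.mem_range.mp (gX.1 hx)
    have h2 : x ≠ p := fun h => hpX (h ▸ hx)
    exact Finset.mem_range.mpr (by omega)

theorem level_all {E : ℕ → Finset ℕ} {n : ℕ} (hE : ∀ k < n, Good E k (E k)) :
    ∀ p ≤ n, Level F E p := by
  intro p
  induction p with
  | zero =>
    intro _ m X hX gX
    have h0 : X = ∅ := by
      have := gX.1
      simpa using this
    subst h0
    exact ⟨fun _ => 0, by simp⟩
  | succ p ih =>
    intro hp
    exact level_succ (hE p (by omega)) (ih (by omega))

end Good

section Rep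

variable [Infinite F]

/-- Existence of a faithful sequential orthogonal system in dimension `d`. -/
theorem exists_rep {n d : ℕ} {E : ℕ → Finset ℕ} (hE : ∀ k < n, Good E k (E k))
    (hd : ∀ k < n, (E k).card < d) :
    ∃ u : ℕ → Fin d → F, (∀ k < n, ∀ j ∈ E k, u j ⬝ᵥ u k = 0) ∧
      (∀ k < n, ∀ j < k, j ∉ E k → u j ⬝ᵥ u k ≠ 0) ∧
      ∀ k < n, LinearIndepOn F u (E k : Set ℕ) := by
  have hL := level_all (F := F) hE
  -- the polynomial functions whose nonvanishing is wanted
  have hA : ∀ k < n, ∃ g : ℕ → Fin d → F,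
      (mix (vec E g) (X := E k) (Y := E k) rfl rfl).det ≠ 0 := fun k hk =>
    (hL k hk.le).mix rfl rfl (hE k hk) (hE k hk) (hd k hk).le
  have hB : ∀ k < n, ∀ j < k, j ∉ E k → ∃ g : ℕ → Fin d → F, vec E g j ⬝ᵥ vec E g k ≠ 0 := by
    intro k hk j hjk hj
    have gY : Good E k (insert j (E k)) :=
      (hE k hk).mono (Finset.subset_insert _ _) (by
        intro x hx
        rcases Finset.mem_insert.mp hx with rfl | hx
        · exact Finset.mem_range.mpr hjk
        · exact (hE k hk).1 hx)
    have hcard : (insert j (E k)).card = (E k).card + 1 := Finset.card_insert_of_notMem hj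
    obtain ⟨g, hg1, hg2⟩ := exists_common₂ (mix_mem_PF E (D := d) hcard hcard)
      (mix_mem_PF E (X := E k) (Y := E k) rfl rfl)
      ((hL k hk.le).mix hcard hcard gY gY (hd k hk)) (hA k hk)
    set u := vec E g with hu
    have hdet : (gram u (E k)).det ≠ 0 := by
      rw [gram_det_eq u (X := E k) rfl]; exact hg2
    have hind := mix_indep_left hg1
    rw [Finset.coe_insert, linearIndepOn_insert (by exact_mod_cast hj)] at hind
    have hex : ∃ v : Fin d → F, (∀ i ∈ E k, u i ⬝ᵥ v = 0) ∧ u j ⬝ᵥ v ≠ 0 := by
      by_contra hcon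
      push Not at hcon
      exact hind.2 (mem_span_of_orth_orth hdet hcon)
    obtain ⟨v, hv1, hv2⟩ := hex
    obtain ⟨hu1, hu2⟩ := vec_update (hE k hk).1 g hv1
    refine ⟨Function.update g k v, ?_⟩
    rw [hu1 j hjk, hu2, dotProduct_smul]
    exact mul_ne_zero hdet hv2
  let f : ℕ × ℕ → (ℕ → Fin d → F) → F := fun p g =>
    if p.1 = p.2 then (mix (vec E g) (X := E p.2) (Y := E p.2) rfl rfl).det
    else vec E g p.1 ⬝ᵥ vec E g p.2
  let s : Finset (ℕ × ℕ) := ((Finset.range n) ×ˢ (Finset.range n)).filter
    fun p => p.1 = p.2 ∨ (p.1 < p.2 ∧ p.1 ∉ E p.2)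
  obtain ⟨g, hg⟩ := exists_common (F := F) (D := d) s (f := f)
    (by
      rintro ⟨j, k⟩ _
      by_cases h : j = k
      · simp only [f, h, if_true]
        exact mix_mem_PF E _ _
      · simp only [f, h, if_false]
        exact dot_mem_PF (vec_mem_PF E _) (vec_mem_PF E _))
    (by
      rintro ⟨j, k⟩ hjk
      simp only [s, Finset.mem_filter, Finset.mem_product, Finset.mem_range] at hjk
      rcases hjk with ⟨⟨hj, hk⟩, rfl | ⟨hlt, hnm⟩⟩
      · simp only [f, if_true]
        exact hA j hj
      · have h : j ≠ k := hlt.ne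
        simp only [f, h, if_false]
        exact hB k hk j hlt hnm)
  refine ⟨vec E g, fun k hk j hj => ?_, fun k hk j hjk hj => ?_, fun k hk => ?_⟩
  · rw [vec_eq (hE k hk).1 g]
    exact dot_proj _ _ _ hj
  · have h1 := hg (j, k) (by simp [s, hjk, hj, hk]; omega)
    have h : j ≠ k := hjk.ne
    simpa only [f, h, if_false] using h1
  · have h1 := hg (k, k) (by simp [s, hk])
    simp only [f, if_true] at h1
    exact mix_indep_left h1

end Rep

section Order

/-- Maximum cardinality search: an ordering `f 0, f 1, ...` of the vertices such that each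
vertex has the least number of earlier non-neighbours among the vertices still available. -/
theorem exists_order {V : Type*} [Fintype V] [DecidableEq V] (G : SimpleGraph V)
    [DecidableRel G.Adj] [Nonempty V] (k : ℕ) (hk : k ≤ Fintype.card V) :
    ∃ f : ℕ → V, Set.InjOn f (Set.Iio k) ∧ ∀ i < k, ∀ v : V, (∀ j < i, f j ≠ v) →
      ((Finset.range i).filter fun j => ¬ G.Adj (f j) (f i)).card ≤
        ((Finset.range i).filter fun j => ¬ G.Adj (f j) v).card := by
  induction k with
  | zero => exact ⟨fun _ => Classical.arbitrary V, by simp, by omega⟩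
  | succ k ih =>
    obtain ⟨f, hinj, hf⟩ := ih (by omega)
    set U : Finset V := Finset.univ \ (Finset.range k).image f with hU
    have hne : U.Nonempty := by
      rw [← Finset.card_pos, hU, Finset.card_sdiff_of_subset (Finset.subset_univ _)]
      have := Finset.card_image_le (s := Finset.range k) (f := f)
      rw [Finset.card_range] at this
      rw [Finset.card_univ]
      omega
    obtain ⟨w, hw, hmin⟩ := Finset.exists_min_image U
      (fun v => ((Finset.range k).filter fun j => ¬ G.Adj (f j) v).card) hne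
    have hwf : ∀ j < k, f j ≠ w := by
      intro j hj h
      rw [hU, Finset.mem_sdiff, Finset.mem_image] at hw
      exact hw.2 ⟨j, Finset.mem_range.mpr hj, h⟩
    have hup : ∀ j, j < k → Function.update f k w j = f j := fun j hj =>
      Function.update_of_ne hj.ne _ _
    have hfil : ∀ (i : ℕ), i ≤ k → ∀ v : V,
        ((Finset.range i).filter fun j => ¬ G.Adj (Function.update f k w j) v) =
          (Finset.range i).filter fun j => ¬ G.Adj (f j) v := by
      intro i hi v
      refine Finset.filter_congr fun j hj => ?_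
      rw [hup j (by have := Finset.mem_range.mp hj; omega)]
    refine ⟨Function.update f k w, ?_, ?_⟩
    · intro a ha b hb hab
      rw [Set.mem_Iio] at ha hb
      rcases Nat.lt_succ_iff_lt_or_eq.mp ha with ha | rfl <;>
        rcases Nat.lt_succ_iff_lt_or_eq.mp hb with hb | rfl
      · rw [hup a ha, hup b hb] at hab
        exact hinj ha hb hab
      · rw [hup a ha, Function.update_self] at hab
        exact absurd hab (hwf a ha)
      · rw [hup b hb, Function.update_self] at hab
        exact absurd hab.symm (hwf b hb)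
      · rfl
    · intro i hi v hv
      rw [hfil i (by omega) v, hfil i (by omega)]
      rcases Nat.lt_succ_iff_lt_or_eq.mp hi with hi | rfl
      · rw [hup i hi]
        refine hf i hi v fun j hj => ?_
        have := hv j hj
        rwa [hup j (by omega)] at this
      · rw [Function.update_self]
        refine hmin v ?_
        rw [hU, Finset.mem_sdiff, Finset.mem_image]
        refine ⟨Finset.mem_univ _, ?_⟩
        rintro ⟨j, hj, hjv⟩
        have hj' := Finset.mem_range.mp hj
        have := hv j hj'
        rw [hup j hj'] at this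
        exact this hjv

end Order

section Main

variable [Infinite F]

/-- **Main theorem.** A finite graph `G` with all degrees at least `δ` has, in dimension
`|V| - δ`, vectors which are orthogonal exactly for distinct non-adjacent vertices; moreover no
nonzero symmetric matrix supported on the non-edges annihilates them. -/
theorem main {V : Type*} [Fintype V] [DecidableEq V] (G : SimpleGraph V) [DecidableRel G.Adj]
    [Nonempty V] {d : ℕ} (hd : Fintype.card V = G.minDegree + d) :
    ∃ y : V → Fin d → F,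
      (∀ v w : V, v ≠ w → (y v ⬝ᵥ y w ≠ 0 ↔ G.Adj v w)) ∧
      ∀ X : Matrix V V F, X.IsSymm → (∀ v w : V, (v = w ∨ G.Adj v w) → X v w = 0) →
        (∀ w : V, ∑ v, X v w • y v = 0) → X = 0 := by
  classical
  set n := Fintype.card V with hn
  obtain ⟨f, hinj, hf⟩ := exists_order G n le_rfl
  have hsurj : ∀ v : V, ∃ k < n, f k = v := by
    have h1 : (Finset.range n).image f = Finset.univ := by
      refine Finset.eq_univ_of_card _ ?_
      rw [Finset.card_image_of_injOn (by simpa using hinj), Finset.card_range]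
    intro v
    have h2 : v ∈ (Finset.range n).image f := by rw [h1]; exact Finset.mem_univ v
    obtain ⟨k, hk, hkv⟩ := Finset.mem_image.mp h2
    exact ⟨k, Finset.mem_range.mp hk, hkv⟩
  choose pos hpos hfpos using hsurj
  have hposf : ∀ k < n, pos (f k) = k := fun k hk => hinj (hpos _) hk (hfpos _)
  let E : ℕ → Finset ℕ := fun k => (Finset.range k).filter fun j => ¬ G.Adj (f j) (f k)
  have hEG : ∀ k < n, Good E k (E k) := by
    intro k hk
    refine ⟨Finset.filter_subset _ _, fun i hi => ?_⟩
    have h1 := hf i (by omega) (f k) (fun j hj h => by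
      have := hinj (show j ∈ Set.Iio n by simp; omega) (show k ∈ Set.Iio n by simp; omega) h
      omega)
    refine h1.trans (le_of_eq ?_)
    congr 1
    ext j
    simp only [E, Finset.mem_filter, Finset.mem_range]
    constructor
    · rintro ⟨h2, h3⟩; exact ⟨⟨by omega, h3⟩, h2⟩
    · rintro ⟨⟨_, h3⟩, h2⟩; exact ⟨h2, h3⟩
  have hcard : ∀ k < n, (E k).card < d := by
    intro k hk
    have h1 : ((E k).image f).card = (E k).card := by
      refine Finset.card_image_of_injOn fun a ha b hb hab => ?_
      have ha' : a < k := Finset.mem_range.mp (Finset.mem_filter.mp ha).1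
      have hb' : b < k := Finset.mem_range.mp (Finset.mem_filter.mp hb).1
      exact hinj (show a < n by omega) (show b < n by omega) hab
    have h2 : Disjoint ((E k).image f) (insert (f k) (G.neighborFinset (f k))) := by
      rw [Finset.disjoint_left]
      intro v hv hv'
      obtain ⟨j, hj, rfl⟩ := Finset.mem_image.mp hv
      obtain ⟨hj1, hj2⟩ := Finset.mem_filter.mp hj
      rcases Finset.mem_insert.mp hv' with h | h
      · have := hinj (show j < n by have := Finset.mem_range.mp hj1; omega) hk h
        have := Finset.mem_range.mp hj1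
        omega
      · rw [SimpleGraph.mem_neighborFinset] at h
        exact hj2 h.symm
    have h3 := Finset.card_union_of_disjoint h2
    have h4 := Finset.card_le_univ ((E k).image f ∪ insert (f k) (G.neighborFinset (f k)))
    rw [h3, h1, Finset.card_insert_of_notMem (by simp), SimpleGraph.card_neighborFinset_eq_degree]
      at h4
    have h5 := G.minDegree_le_degree (f k)
    omega
  obtain ⟨u, hu0, hu1, hu2⟩ := exists_rep (F := F) hEG hcard
  refine ⟨fun v => u (pos v), ?_, ?_⟩
  · have key : ∀ v w : V, pos v < pos w → (u (pos v) ⬝ᵥ u (pos w) ≠ 0 ↔ G.Adj v w) := by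
      intro v w hlt
      constructor
      · intro h
        by_contra hnadj
        apply h
        refine hu0 (pos w) (hpos w) (pos v) ?_
        simp only [E, Finset.mem_filter, Finset.mem_range, hfpos]
        exact ⟨hlt, hnadj⟩
      · intro hadj
        refine hu1 (pos w) (hpos w) (pos v) hlt ?_
        simp only [E, Finset.mem_filter, Finset.mem_range, hfpos]
        exact fun h => h.2 hadj
    intro v w hvw
    rcases lt_trichotomy (pos v) (pos w) with h | h | h
    · exact key v w h
    · exact absurd (by rw [← hfpos v, ← hfpos w, h]) hvw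
    · rw [dotProduct_comm, key w v h, G.adj_comm]
  · intro X hsymm hX0 hX
    have key : ∀ m, ∀ k, n - m ≤ k → k < n → ∀ v, X v (f k) = 0 := by
      intro m
      induction m with
      | zero => intro k h1 h2; omega
      | succ m ih =>
        intro k h1 h2
        by_cases h3 : n - m ≤ k
        · exact ih k h3 h2
        have hk : k = n - (m + 1) := by omega
        have h4 : ∀ v, pos v ∉ E k → X v (f k) = 0 := by
          intro v hv
          rcases lt_trichotomy (pos v) k with h | h | h
          · refine hX0 _ _ (Or.inr ?_)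
            by_contra hna
            apply hv
            simp only [E, Finset.mem_filter, Finset.mem_range, hfpos]
            exact ⟨h, hna⟩
          · refine hX0 _ _ (Or.inl ?_)
            rw [← h, hfpos]
          · have h5 := ih (pos v) (by omega) (hpos v) (f k)
            rw [hfpos] at h5
            rw [← hsymm.apply]
            exact h5
        have h5 := hX (f k)
        have h6 : ∑ j ∈ E k, X (f j) (f k) • u j = 0 := by
          rw [← h5]
          have h7 : ∑ v ∈ (E k).image f, X v (f k) • u (pos v) = ∑ v, X v (f k) • u (pos v) := by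
            refine Finset.sum_subset (Finset.subset_univ _) fun v _ hv => ?_
            rw [h4 v (fun h => hv (Finset.mem_image.mpr ⟨pos v, h, hfpos v⟩)), zero_smul]
          rw [← h7, Finset.sum_image]
          · refine Finset.sum_congr rfl fun j hj => ?_
            have : j < n := by
              have := Finset.mem_range.mp (Finset.mem_filter.mp hj).1
              omega
            rw [hposf j this]
          · intro a ha b hb hab
            have ha' : a < k := Finset.mem_range.mp (Finset.mem_filter.mp ha).1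
            have hb' : b < k := Finset.mem_range.mp (Finset.mem_filter.mp hb).1
            exact hinj (show a < n by omega) (show b < n by omega) hab
        have h8 := linearIndepOn_finset_iff.mp (hu2 k h2) (fun j => X (f j) (f k)) h6
        intro v
        by_cases hv : pos v ∈ E k
        · have := h8 (pos v) hv
          rwa [hfpos] at this
        · exact h4 v hv
    ext v w
    have := key n (pos w) (by omega) (hpos w) v
    rwa [hfpos] at this

end Main

end

end Pool.Agent.Lib_helper62
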