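import Pool.Agent.Lib_helper80.UKL.M3b
import Pool.Agent.Lib_helper62.UKL_M4

/-!
# UKL module M6, part a: the expansion of `chi` along `V` doublings, and the sup bound for `h`
-/

set_option autoImplicit false

namespace UKL
namespace M6a

open Finset

/-- the expansion of `chi n (2^V ξ)` -/
theorem expansion (ξ : ℤ) : ∀ V l n : ℕ, l ≤ n →
    ‖chi n (2 ^ V * ξ) - ∑ v ∈ range (V + 1), h ξ V v l n * chi (n - l) (2 ^ (V - v) * ξ)‖
      ≤ 2 ^ l * (3 / 4 : ℝ) ^ V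
  | V, 0, n, _ => by
    rw [sum_range_succ']
    have : ∑ v ∈ range V, h ξ V (v + 1) 0 n * chi (n - 0) (2 ^ (V - (v + 1)) * ξ) = 0 :=
      sum_eq_zero fun v _ => by rw [M4.h_sz, zero_mul]
    rw [this, M4.h_zz]
    simp only [Nat.sub_zero, one_mul, zero_add, sub_self, norm_zero, pow_zero]
    positivity
  | 0, l + 1, n, _ => by
    rw [sum_range_one, M4.h_zs, zero_mul, sub_zero]
    refine (chi_norm_le_one n _).trans ?_
    rw [pow_zero, mul_one]
    exact one_le_pow₀ (by norm_num)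
  | V + 1, l + 1, n, hn => by
    obtain ⟨n, rfl⟩ : ∃ k, n = k + 1 := ⟨n - 1, by omega⟩
    have h1 := expansion ξ V (l + 1) (n + 1) hn
    have h2 := expansion ξ V l n (by omega)
    have hrec := chi_succ_two_mul n (2 ^ V * ξ)
    have e1 : (2 : ℤ) * (2 ^ V * ξ) = 2 ^ (V + 1) * ξ := by rw [pow_succ]; ring
    rw [e1] at hrec
    have hsum : ∑ v ∈ range (V + 1 + 1),
          h ξ (V + 1) v (l + 1) (n + 1) * chi (n + 1 - (l + 1)) (2 ^ (V + 1 - v) * ξ)
        = (1 / 2) * ∑ v ∈ range (V + 1),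
            h ξ V v (l + 1) (n + 1) * chi (n + 1 - (l + 1)) (2 ^ (V - v) * ξ)
          + (1 / 2) * e (-(2 ^ V * ξ : ℝ) / 3 ^ (n + 1)) * ∑ v ∈ range (V + 1),
            h ξ V v l n * chi (n - l) (2 ^ (V - v) * ξ) := by
      rw [sum_range_succ', M4.h_zs, zero_mul, add_zero, mul_sum, mul_sum, ← sum_add_distrib]
      refine sum_congr rfl fun v _ => ?_
      rw [M4.h_ss, show n + 1 - (l + 1) = n - l by omega, show n + 1 - 1 = n by omega,
        show V + 1 - (v + 1) = V - v by omega]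
      ring
    rw [hsum, hrec]
    have e2 : e (-(((2 ^ V * ξ : ℤ) : ℝ) / 3 ^ (n + 1))) = e (-(2 ^ V * ξ : ℝ) / 3 ^ (n + 1)) := by
      congr 1; push_cast; ring
    have e3 : e (-((2 ^ V * ξ : ℤ) : ℝ) / 3 ^ (n + 1)) = e (-(2 ^ V * ξ : ℝ) / 3 ^ (n + 1)) := by
      congr 1; push_cast; ring
    try rw [e2]
    try rw [e3]
    have key : ∀ a b c d z : ℂ, (1 / 2) * a + (1 / 2) * z * b - ((1 / 2) * c + (1 / 2) * z * d)
        = (1 / 2) * (a - c) + (1 / 2) * z * (b - d) := by intros; ring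
    rw [key]
    refine (norm_add_le _ _).trans ?_
    rw [norm_mul, norm_mul, norm_mul, norm_e]
    have q : ‖(1 / 2 : ℂ)‖ = 1 / 2 := by norm_num
    rw [q]
    have e4 : (2 : ℝ) ^ (l + 1) * (3 / 4) ^ (V + 1)
        = (1 / 2) * (2 ^ (l + 1) * (3 / 4) ^ V) + (1 / 2) * 1 * (2 ^ l * (3 / 4) ^ V) := by
      rw [pow_succ, pow_succ]; ring
    rw [e4]
    gcongr

/-- binomial majorant of `|h|` -/
noncomputable def B : ℕ → ℕ → ℝ
  | 0, 0 => 1
  | 0, _ + 1 => 0
  | _ + 1, 0 => 0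
  | v + 1, l + 1 => (v.choose l : ℝ) / 2 ^ (v + 1)

lemma B_nonneg : ∀ v l, 0 ≤ B v l
  | 0, 0 => by simp [B]
  | 0, _ + 1 => by simp [B]
  | _ + 1, 0 => by simp [B]
  | v + 1, l + 1 => by unfold B; positivity

lemma B_step : ∀ v l, (1 / 2) * B v (l + 1) + (1 / 2) * B v l ≤ B (v + 1) (l + 1)
  | 0, 0 => by simp [B]
  | 0, l + 1 => by simp [B]
  | v + 1, 0 => by
    simp only [B, Nat.choose_zero_right]
    rw [pow_succ (2 : ℝ) (v + 1)]
    have : (0 : ℝ) < 2 ^ (v + 1) := by positivity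
    apply le_of_eq
    field_simp
    simp
  | v + 1, l + 1 => by
    simp only [B, Nat.choose_succ_succ v l]
    rw [pow_succ (2 : ℝ) (v + 1)]
    have : (0 : ℝ) < 2 ^ (v + 1) := by positivity
    apply le_of_eq
    push_cast
    field_simp
    ring

lemma norm_h_le_B (ξ : ℤ) : ∀ V v l n : ℕ, ‖h ξ V v l n‖ ≤ B v l
  | V, 0, 0, n => by rw [M4.h_zz]; simp [B]
  | V, v + 1, 0, n => by rw [M4.h_sz, norm_zero]; exact B_nonneg _ _
  | V, 0, l + 1, n => by rw [M4.h_zs, norm_zero]; exact B_nonneg _ _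
  | 0, v + 1, l + 1, n => by
    have : h ξ 0 (v + 1) (l + 1) n = 0 := M4.h_zero_of_lt ξ 0 (v + 1) (l + 1) n (by omega)
    rw [this, norm_zero]; exact B_nonneg _ _
  | V + 1, v + 1, l + 1, n => by
    rw [M4.h_ss]
    refine (norm_add_le _ _).trans ?_
    rw [norm_mul, norm_mul, norm_mul, norm_e]
    have q : ‖(1 / 2 : ℂ)‖ = 1 / 2 := by norm_num
    rw [q]
    have h1 := norm_h_le_B ξ V v (l + 1) n
    have h2 := norm_h_le_B ξ V v l (n - 1)
    have h3 := B_step v l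
    linarith

/-- `C(2n,n)² (3n+1) ≤ 16^n` -/
lemma central_sq (n : ℕ) : ((Nat.centralBinom n : ℝ)) ^ 2 * (3 * n + 1) ≤ (4 ^ n) ^ 2 := by
  induction n with
  | zero => simp
  | succ n ih =>
    have h1 : ((n : ℝ) + 1) * (Nat.centralBinom (n + 1) : ℝ)
        = 2 * (2 * n + 1) * (Nat.centralBinom n : ℝ) := by
      exact_mod_cast Nat.succ_mul_centralBinom_succ n
    have hn : (0 : ℝ) < (n : ℝ) + 1 := by positivity
    have hn0 : (0 : ℝ) ≤ n := by positivity
    have h2 : (Nat.centralBinom (n + 1) : ℝ) = 2 * (2 * n + 1) * (Nat.centralBinom n : ℝ) / (n + 1) := by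
      field_simp; linarith
    rw [h2, div_pow, pow_succ (4 : ℝ) n]
    push_cast
    rw [div_mul_eq_mul_div, div_le_iff₀ (by positivity)]
    set c := (Nat.centralBinom n : ℝ)
    have hc : 0 ≤ c ^ 2 := by positivity
    -- (2n+1)^2 (3n+4) ≤ 4 (n+1)^2 (3n+1)
    have h3 : (2 * (n : ℝ) + 1) ^ 2 * (3 * n + 4) ≤ 4 * (n + 1) ^ 2 * (3 * n + 1) := by
      nlinarith
    have h4 : c ^ 2 * ((2 * (n : ℝ) + 1) ^ 2 * (3 * n + 4)) ≤ c ^ 2 * (4 * (n + 1) ^ 2 * (3 * n + 1)) :=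
      mul_le_mul_of_nonneg_left h3 hc
    have h5 := mul_le_mul_of_nonneg_right ih (show (0 : ℝ) ≤ 4 * 4 * (n + 1) ^ 2 by positivity)
    nlinarith

/-- `C(v,l) ≤ 2^v / √(v+1)` -/
lemma choose_le (v l : ℕ) : (v.choose l : ℝ) ≤ 2 ^ v / Real.sqrt (v + 1) := by
  have hs : 0 < Real.sqrt ((v : ℝ) + 1) := Real.sqrt_pos.2 (by positivity)
  rw [le_div_iff₀ hs]
  have h1 : (v.choose l : ℝ) ≤ (v.choose (v / 2) : ℝ) := by exact_mod_cast Nat.choose_le_middle l v
  have h2 : (v.choose (v / 2) : ℝ) ^ 2 * (v + 1) ≤ (2 ^ v) ^ 2 := by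
    rcases Nat.even_or_odd' v with ⟨n, rfl | rfl⟩
    · have : 2 * n / 2 = n := by omega
      rw [this]
      have h3 := central_sq n
      rw [Nat.centralBinom_eq_two_mul_choose] at h3
      have e1 : ((2 : ℝ) ^ (2 * n)) = 4 ^ n := by rw [pow_mul]; norm_num
      rw [e1]
      refine le_trans ?_ h3
      push_cast
      apply mul_le_mul_of_nonneg_left _ (by positivity)
      have : (0 : ℝ) ≤ n := by positivity
      linarith
    · have : (2 * n + 1) / 2 = n := by omega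
      rw [this]
      have h3 := central_sq (n + 1)
      rw [Nat.centralBinom_eq_two_mul_choose] at h3
      have h4 : (2 * (n + 1)).choose (n + 1) = 2 * (2 * n + 1).choose n := by
        rw [show 2 * (n + 1) = 2 * n + 1 + 1 by ring, Nat.choose_succ_succ,
          Nat.choose_symm_half]
        ring
      rw [h4] at h3
      have e1 : ((4 : ℝ) ^ (n + 1)) = 2 * 2 ^ (2 * n + 1) := by
        rw [show (4 : ℝ) = 2 ^ 2 by norm_num, ← pow_mul, ← pow_succ']
        congr 1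
      rw [e1] at h3
      push_cast at h3 ⊢
      have h5 : (0 : ℝ) ≤ ((2 * n + 1).choose n : ℝ) ^ 2 := by positivity
      have hn0 : (0 : ℝ) ≤ n := by positivity
      nlinarith [mul_nonneg h5 hn0]
  have h6 : ((v.choose (v / 2) : ℝ) * Real.sqrt (v + 1)) ^ 2 ≤ (2 ^ v) ^ 2 := by
    rw [mul_pow, Real.sq_sqrt (by positivity)]; exact h2
  have h7 : (v.choose (v / 2) : ℝ) * Real.sqrt (v + 1) ≤ 2 ^ v :=
    le_of_sq_le_sq h6 (by positivity)
  exact (mul_le_mul_of_nonneg_right h1 hs.le).trans h7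

/-- sup bound for the coefficients -/
theorem norm_h_le (ξ : ℤ) (V v l n : ℕ) (hl : 1 ≤ l) :
    ‖h ξ V v l n‖ ≤ 1 / (2 * Real.sqrt l) := by
  obtain ⟨l, rfl⟩ : ∃ k, l = k + 1 := ⟨l - 1, by omega⟩
  have hpos : 0 < Real.sqrt ((l + 1 : ℕ) : ℝ) := Real.sqrt_pos.2 (by positivity)
  rcases v with _ | v
  · rw [M4.h_zs, norm_zero]; positivity
  by_cases hlv : l ≤ v
  · refine (norm_h_le_B ξ V (v + 1) (l + 1) n).trans ?_
    show (v.choose l : ℝ) / 2 ^ (v + 1) ≤ _
    have h1 := choose_le v l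
    have h2 : Real.sqrt ((l + 1 : ℕ) : ℝ) ≤ Real.sqrt (v + 1) := by
      apply Real.sqrt_le_sqrt
      push_cast
      have : (l : ℝ) ≤ v := by exact_mod_cast hlv
      linarith
    have h3 : (0 : ℝ) < 2 ^ v := by positivity
    rw [pow_succ]
    calc (v.choose l : ℝ) / (2 ^ v * 2) ≤ (2 ^ v / Real.sqrt (v + 1)) / (2 ^ v * 2) := by
          apply div_le_div_of_nonneg_right h1 (by positivity)
      _ = 1 / (2 * Real.sqrt (v + 1)) := by
          have : Real.sqrt ((v : ℝ) + 1) ≠ 0 := (lt_of_lt_of_le hpos h2).ne'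
          field_simp
      _ ≤ 1 / (2 * Real.sqrt ((l + 1 : ℕ) : ℝ)) := by
          apply one_div_le_one_div_of_le (by positivity)
          linarith
  · push Not at hlv
    refine (norm_h_le_B ξ V (v + 1) (l + 1) n).trans ?_
    show (v.choose l : ℝ) / 2 ^ (v + 1) ≤ _
    rw [Nat.choose_eq_zero_of_lt hlv]
    simp only [Nat.cast_zero, zero_div]
    positivity

end M6a
end UKL
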